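import Pool.Agent.Lib_MP_f1a94e_mr.PairsU

/-!
# Piece PAIRSX: `pairsU` with an explicit constant
-/

set_option autoImplicit false

namespace Pool.Agent.GaussMR

/-- `pairsA` with the constant `9 * 2 ^ (l + l)` -/
theorem pairsAX (l : ℕ) (P Q X : ℝ) (x y : Fin l → G) (hx : ∀ i, x i ∈ PP P Q)
    (hy : ∀ i, y i ∈ PP P Q) (hX : 0 ≤ X) :
    (Set.ncard {p : G × G | p.1 ∈ V X ∧ p.2 ∈ V X ∧
      pr ((∏ i, x i) * p.1) = pr ((∏ i, y i) * p.2)} : ℝ) ≤
      (9 * 2 ^ (l + l)) * X * (nm (EuclideanDomain.gcd (∏ i, x i) (∏ i, y i)) : ℝ) /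
        Real.sqrt (nm (∏ i, x i) * nm (∏ i, y i) : ℝ) := by
  classical
  set u := ∏ i, x i with hu
  set u' := ∏ i, y i with hu'
  obtain ⟨hup, huo⟩ := prim_prod x hx
  obtain ⟨hup', huo'⟩ := prim_prod y hy
  rw [← hu] at hup huo
  rw [← hu'] at hup' huo'
  have hu0 : u ≠ 0 := ne_zero_of_odd huo
  have hu0' : u' ≠ 0 := ne_zero_of_odd huo'
  set g := EuclideanDomain.gcd u u' with hg
  obtain ⟨a, ha⟩ : g ∣ u := EuclideanDomain.gcd_dvd_left _ _
  obtain ⟨b, hb⟩ : g ∣ u' := EuclideanDomain.gcd_dvd_right _ _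
  have hg0 : g ≠ 0 := by
    intro h0
    rw [h0, zero_mul] at ha
    exact hu0 ha
  have hap : Prim a := by
    rw [ha] at hup
    exact (prim_of_mul hup).2
  have hbp : Prim b := by
    rw [hb] at hup'
    exact (prim_of_mul hup').2
  have hcop : IsCoprime a b := by
    have hbez := EuclideanDomain.gcd_eq_gcd_ab u u'
    rw [← hg] at hbez
    refine ⟨EuclideanDomain.gcdA u u', EuclideanDomain.gcdB u u', ?_⟩
    have h1 : g * 1 = g * (EuclideanDomain.gcdA u u' * a + EuclideanDomain.gcdB u u' * b) := by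
      rw [mul_one]
      calc g = u * EuclideanDomain.gcdA u u' + u' * EuclideanDomain.gcdB u u' := hbez
        _ = (g * a) * EuclideanDomain.gcdA u u' + (g * b) * EuclideanDomain.gcdB u u' := by
            rw [← ha, ← hb]
        _ = _ := by ring
    exact (mul_left_cancel₀ hg0 h1).symm
  set ω := a * star b with hω
  have hωp : Prim ω := prim_mul_star hap hbp hcop
  have ha0 : a ≠ 0 := by
    rintro rfl
    rw [mul_zero] at ha
    exact hu0 ha
  have hb0 : b ≠ 0 := by
    rintro rfl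
    rw [mul_zero] at hb
    exact hu0' hb
  have hω0 : ω ≠ 0 := mul_ne_zero ha0 (star_ne_zero' hb0)
  have hωpos : 0 < nm ω := nm_pos hω0
  -- the structure of the pairs
  have hstruct : ∀ p : G × G, p.1 ∈ V X → p.2 ∈ V X → pr (u * p.1) = pr (u' * p.2) →
      ∃ c : ℕ, 0 < c ∧ ω * p.1 = (c : G) * p.2 := by
    intro p hp1 hp2 hpr
    have h10 := V_ne_zero hp1
    have h20 := V_ne_zero hp2
    obtain ⟨e1, e2, e3⟩ := pr_spec (u * p.1) (mul_ne_zero hu0 h10)
    obtain ⟨f1, f2, f3⟩ := pr_spec (u' * p.2) (mul_ne_zero hu0' h20)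
    set m := Int.gcd (u * p.1).re (u * p.1).im with hm
    set m' := Int.gcd (u' * p.2).re (u' * p.2).im with hm'
    -- m' * u * z = m * u' * z'
    have h1 : (m' : G) * (u * p.1) = (m : G) * (u' * p.2) := by
      rw [e1, f1, hpr]
      ring
    have h2 : (m' : G) * (a * p.1) = (m : G) * (b * p.2) := by
      apply mul_left_cancel₀ hg0
      calc g * ((m' : G) * (a * p.1)) = (m' : G) * ((g * a) * p.1) := by ring
        _ = (m : G) * ((g * b) * p.2) := by rw [← ha, ← hb]; exact h1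
        _ = g * ((m : G) * (b * p.2)) := by ring
    have h3 : (m' : G) * (ω * p.1) = ((m * nm b : ℕ) : G) * p.2 := by
      calc (m' : G) * (ω * p.1) = star b * ((m' : G) * (a * p.1)) := by rw [hω]; ring
        _ = star b * ((m : G) * (b * p.2)) := by rw [h2]
        _ = (m : G) * (b * star b) * p.2 := by ring
        _ = ((m * nm b : ℕ) : G) * p.2 := by rw [mul_star_self]; push_cast; ring
    have h4 : pr (ω * p.1) = p.2 := by
      rw [← pr_nat_mul m' f2, h3, pr_nat_mul (m * nm b) (Nat.mul_pos e2 (nm_pos hb0)),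
        pr_eq_self _ (mem_V.mp hp2).2.2]
    obtain ⟨g1, g2, g3⟩ := pr_spec (ω * p.1) (mul_ne_zero hω0 h10)
    rw [h4] at g1
    exact ⟨_, g2, g1⟩
  -- the prime factors of star ω
  let q : Fin l ⊕ Fin l → G := Sum.elim (fun i => star (x i)) y
  have hq : ∀ j ∈ (Finset.univ : Finset (Fin l ⊕ Fin l)), Prime (q j) := by
    rintro (i | i) _
    · exact (PP_spl (hx i)).conj.prime
    · exact (PP_spl (hy i)).prime
  have hprod : ∏ j, q j = star u * u' := by
    rw [Fintype.prod_sum_type]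
    simp only [q, Sum.elim_inl, Sum.elim_inr]
    rw [hu, hu', star_prod]
  have hωdvd : star ω ∣ ∏ j, q j := by
    rw [hprod, hω, ha, hb, star_mul, star_mul, star_star]
    exact ⟨star g * g, by ring⟩
  set t : ℝ := X / Real.sqrt (nm ω) with ht
  have hsq0 : 0 < Real.sqrt (nm ω) := Real.sqrt_pos.mpr (by exact_mod_cast hωpos)
  have ht0 : 0 ≤ t := div_nonneg hX hsq0.le
  set B := (ball t).filter (fun z => z ≠ 0) with hB
  -- the first coordinates
  have hfirst : ∀ p : G × G, p.1 ∈ V X → p.2 ∈ V X → pr (u * p.1) = pr (u' * p.2) →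
      ∃ A : Finset (Fin l ⊕ Fin l), ∃ z1 ∈ B, p.1 = (∏ j ∈ A, q j) * z1 := by
    intro p hp1 hp2 hpr
    obtain ⟨c, hc0, hc⟩ := hstruct p hp1 hp2 hpr
    have h10 := V_ne_zero hp1
    have hprim := (mem_V.mp hp1).2.2
    have hcd := content_dvd hωp hprim (Dvd.intro _ hc.symm)
    set h := EuclideanDomain.gcd p.1 (star ω) with hh
    have hh1 : h ∣ p.1 := EuclideanDomain.gcd_dvd_left _ _
    have hh2 : h ∣ star ω := EuclideanDomain.gcd_dvd_right _ _
    have hh0 : h ≠ 0 := by
      intro h0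
      rw [h0] at hh1
      exact h10 (zero_dvd_iff.mp hh1)
    obtain ⟨k, hk⟩ := hh2.trans hωdvd
    obtain ⟨A, A', e, e', hAA, hdis, hee, hhA, hkA⟩ :=
      mul_eq_mul_prime_prod (x := h) (y := k) (a := 1) hq (by rw [one_mul]; exact hk.symm)
    have heu : IsUnit e := IsUnit.of_mul_eq_one _ hee.symm
    have hnm1 : nm (∏ j ∈ A, q j) = nm h := by
      rw [hhA, nm_mul, nm_eq_one_iff.mpr heu, one_mul]
    have hdvd : (∏ j ∈ A, q j) ∣ p.1 := by
      refine Dvd.dvd.trans ?_ hh1
      rw [hhA]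
      exact dvd_mul_left _ _
    obtain ⟨z1, hz1⟩ := hdvd
    refine ⟨A, z1, ?_, hz1⟩
    have hz10 : z1 ≠ 0 := by
      rintro rfl
      rw [mul_zero] at hz1
      exact h10 hz1
    rw [hB, Finset.mem_filter, mem_ball]
    refine ⟨?_, hz10⟩
    -- the estimate
    have hcle : c ≤ nm h := Nat.le_of_dvd (nm_pos hh0) hcd
    have hn1 : nm ω * nm p.1 = c ^ 2 * nm p.2 := by
      rw [← nm_mul, hc, nm_mul, nm_natCast_pairsa]
    have hn2 : (nm p.1 : ℝ) = nm h * nm z1 := by
      rw [hz1, nm_mul, hnm1]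
      push_cast
      ring
    have hX1 : (nm p.1 : ℝ) ≤ X := (mem_V.mp hp1).1
    have hX2 : (nm p.2 : ℝ) ≤ X := (mem_V.mp hp2).1
    have hn3 : (nm ω : ℝ) * nm p.1 ≤ (nm h : ℝ) ^ 2 * X := by
      have h1 : (nm ω : ℝ) * nm p.1 = (c : ℝ) ^ 2 * nm p.2 := by exact_mod_cast hn1
      rw [h1]
      have h2 : (c : ℝ) ≤ nm h := by exact_mod_cast hcle
      have h3 : (c : ℝ) ^ 2 ≤ (nm h : ℝ) ^ 2 := pow_le_pow_left₀ (by positivity) h2 2
      exact mul_le_mul h3 hX2 (by positivity) (by positivity)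
    have hnh : (0 : ℝ) < nm h := by exact_mod_cast nm_pos hh0
    have hωr : (0 : ℝ) < nm ω := by exact_mod_cast hωpos
    -- (nm z1)^2 nm ω ≤ X^2
    have hn4 : (nm z1 : ℝ) ^ 2 * nm ω ≤ X ^ 2 := by
      have h1 : (nm h : ℝ) ^ 2 * ((nm z1 : ℝ) ^ 2 * nm ω) ≤ (nm h : ℝ) ^ 2 * X ^ 2 := by
        calc (nm h : ℝ) ^ 2 * ((nm z1 : ℝ) ^ 2 * nm ω) = (nm ω * nm p.1) * nm p.1 := by
              rw [hn2]; ring
          _ ≤ ((nm h : ℝ) ^ 2 * X) * X :=
              mul_le_mul hn3 hX1 (by positivity) (by positivity)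
          _ = (nm h : ℝ) ^ 2 * X ^ 2 := by ring
      exact le_of_mul_le_mul_left h1 (by positivity)
    rw [ht, le_div_iff₀ hsq0]
    apply le_of_sq_le_sq _ hX
    rw [mul_pow, Real.sq_sqrt hωr.le]
    exact hn4
  -- counting
  set S := {p : G × G | p.1 ∈ V X ∧ p.2 ∈ V X ∧ pr (u * p.1) = pr (u' * p.2)} with hS
  set T : Finset G := ((Finset.univ : Finset (Finset (Fin l ⊕ Fin l))) ×ˢ B).image
    (fun r => (∏ j ∈ r.1, q j) * r.2) with hT
  have hmaps : Set.MapsTo (fun p : G × G => p.1) S (T : Set G) := by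
    rintro p ⟨hp1, hp2, hpr⟩
    obtain ⟨A, z1, hz1, heq⟩ := hfirst p hp1 hp2 hpr
    rw [hT, Finset.mem_coe, Finset.mem_image]
    exact ⟨(A, z1), Finset.mem_product.mpr ⟨Finset.mem_univ _, hz1⟩, heq.symm⟩
  have hinj : Set.InjOn (fun p : G × G => p.1) S := by
    rintro p ⟨hp1, hp2, hpr⟩ p' ⟨hp1', hp2', hpr'⟩ heq
    have heq' : p.1 = p'.1 := heq
    obtain ⟨c, hc0, hc⟩ := hstruct p hp1 hp2 hpr
    obtain ⟨c', hc0', hc'⟩ := hstruct p' hp1' hp2' hpr'
    have h1 : pr (ω * p.1) = p.2 := by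
      rw [hc, pr_nat_mul c hc0, pr_eq_self _ (mem_V.mp hp2).2.2]
    have h2 : pr (ω * p'.1) = p'.2 := by
      rw [hc', pr_nat_mul c' hc0', pr_eq_self _ (mem_V.mp hp2').2.2]
    have h3 : p.2 = p'.2 := by rw [← h1, ← h2, heq']
    exact Prod.ext heq' h3
  have hcard1 : Set.ncard S ≤ T.card := by
    have := Set.ncard_le_ncard_of_injOn (fun p : G × G => p.1) hmaps hinj (Finset.finite_toSet T)
    rwa [Set.ncard_coe_finset] at this
  have hcard2 : T.card ≤ 2 ^ (l + l) * B.card := by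
    refine Finset.card_image_le.trans ?_
    rw [Finset.card_product, Finset.card_univ, Fintype.card_finset, Fintype.card_sum,
      Fintype.card_fin]
  have hcard3 : (B.card : ℝ) ≤ 9 * t := card_ball_le t ht0
  have hfin : (Set.ncard S : ℝ) ≤ 2 ^ (l + l) * (9 * t) := by
    calc (Set.ncard S : ℝ) ≤ (T.card : ℝ) := by exact_mod_cast hcard1
      _ ≤ ((2 ^ (l + l) * B.card : ℕ) : ℝ) := by exact_mod_cast hcard2
      _ = 2 ^ (l + l) * (B.card : ℝ) := by push_cast; ring
      _ ≤ 2 ^ (l + l) * (9 * t) := mul_le_mul_of_nonneg_left hcard3 (by positivity)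
  refine hfin.trans (le_of_eq ?_)
  have hgr : (0 : ℝ) < nm g := by exact_mod_cast nm_pos hg0
  have hnn : (nm u * nm u' : ℝ) = (nm g : ℝ) ^ 2 * nm ω := by
    have h1 : nm u = nm g * nm a := by rw [ha, nm_mul]
    have h2 : nm u' = nm g * nm b := by rw [hb, nm_mul]
    have h3 : nm ω = nm a * nm b := by rw [hω, nm_mul, nm_star]
    rw [h1, h2, h3]
    push_cast
    ring
  rw [hnn, Real.sqrt_mul (by positivity), Real.sqrt_sq hgr.le, ht]
  field_simp

/-- the constants of `pb_main` -/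
noncomputable def pxC : ℕ → ℕ → ℝ
  | 0, m => 3 ^ m
  | l + 1, 0 => 3 ^ (l + 1)
  | l + 1, m + 1 => 3 * pxC l (m + 1) + (m + 1) * 9 * pxC l m

theorem pxC_nonneg (l m : ℕ) : 0 ≤ pxC l m := by
  induction l generalizing m with
  | zero => simp only [pxC]; positivity
  | succ l ih =>
    cases m with
    | zero => simp only [pxC]; positivity
    | succ m =>
      simp only [pxC]
      have h1 := ih (m + 1)
      have h2 := ih m
      positivity

theorem pxC_le (l m : ℕ) : pxC l m ≤ (12 * ((m : ℝ) + 1)) ^ l * 3 ^ m := by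
  induction l generalizing m with
  | zero => simp only [pxC]; simp
  | succ l ih =>
    cases m with
    | zero =>
      simp only [pxC]
      rw [pow_zero, mul_one]
      exact pow_le_pow_left₀ (by norm_num) (by norm_num) _
    | succ m =>
      simp only [pxC]
      have h1 := ih (m + 1)
      have h2 := ih m
      have h3 : (12 * ((m : ℝ) + 1)) ^ l ≤ (12 * (((m + 1 : ℕ) : ℝ) + 1)) ^ l := by
        apply pow_le_pow_left₀ (by positivity)
        push_cast
        linarith
      set A : ℝ := (12 * (((m + 1 : ℕ) : ℝ) + 1)) ^ l with hA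
      have hA0 : 0 ≤ A := by rw [hA]; positivity
      have h4 : pxC l m ≤ A * 3 ^ m := h2.trans (mul_le_mul_of_nonneg_right h3 (by positivity))
      have h5 : (12 * (((m + 1 : ℕ) : ℝ) + 1)) ^ (l + 1) * 3 ^ (m + 1) =
          A * 3 ^ m * (36 * ((m : ℝ) + 2)) := by
        rw [pow_succ, pow_succ, ← hA]
        push_cast
        ring
      rw [h5]
      have h6 : 3 * pxC l (m + 1) ≤ A * 3 ^ m * 9 := by
        have : A * 3 ^ m * 9 = 3 * (A * 3 ^ (m + 1)) := by rw [pow_succ]; ring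
        rw [this]
        linarith
      have h7 : ((m : ℝ) + 1) * 9 * pxC l m ≤ A * 3 ^ m * (9 * ((m : ℝ) + 1)) := by
        have := mul_le_mul_of_nonneg_left h4 (by positivity : (0 : ℝ) ≤ ((m : ℝ) + 1) * 9)
        refine this.trans (le_of_eq ?_)
        ring
      have h8 : A * 3 ^ m * 9 + A * 3 ^ m * (9 * ((m : ℝ) + 1)) ≤
          A * 3 ^ m * (36 * ((m : ℝ) + 2)) := by
        rw [← mul_add]
        apply mul_le_mul_of_nonneg_left _ (by positivity)
        have : (0 : ℝ) ≤ m := Nat.cast_nonneg m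
        linarith
      linarith

/-- `pb_main` with the constant `pxC l m` -/
theorem px_main (l : ℕ) : ∀ (m : ℕ) (P Q Y : ℝ) (W : Finset G), W ⊆ PP P Q →
    1 ≤ Y → (∀ w ∈ W, (nm w : ℝ) ≤ 3 * Y) →
    ∑ x ∈ Fintype.piFinset (fun _ : Fin l => W), ∑ y ∈ Fintype.piFinset (fun _ : Fin m => W),
      (nm (EuclideanDomain.gcd (∏ i, x i) (∏ i, y i)) : ℝ) ≤ pxC l m * Y ^ (l + m) := by
  induction l with
  | zero =>
    intro m
    intro P Q Y W hW hY h
    simp only [pxC]
    have hc := pb_card hW hY h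
    have h1 : ∀ x ∈ Fintype.piFinset (fun _ : Fin 0 => W),
        ∑ y ∈ Fintype.piFinset (fun _ : Fin m => W),
          (nm (EuclideanDomain.gcd (∏ i, x i) (∏ i, y i)) : ℝ) = (W.card : ℝ) ^ m := by
      intro x _
      have h2 : ∀ y ∈ Fintype.piFinset (fun _ : Fin m => W),
          (nm (EuclideanDomain.gcd (∏ i, x i) (∏ i, y i)) : ℝ) = 1 := by
        intro y _
        have h3 : ∏ i, x i = 1 := by simp
        rw [h3]
        have h4 : IsUnit (EuclideanDomain.gcd (1 : G) (∏ i, y i)) :=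
          isUnit_of_dvd_one (EuclideanDomain.gcd_dvd_left _ _)
        rw [nm_eq_one_iff.2 h4]
        simp
      rw [Finset.sum_congr rfl h2]
      simp
    rw [Finset.sum_congr rfl h1]
    have h5 : (Fintype.piFinset (fun _ : Fin 0 => W)).card = 1 := by simp
    rw [Finset.sum_const, h5, one_smul, Nat.zero_add, ← mul_pow]
    exact pow_le_pow_left₀ (by positivity) hc m
  | succ l ih =>
    intro m
    rcases Nat.eq_zero_or_pos m with hm | hm
    · subst hm
      intro P Q Y W hW hY h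
      simp only [pxC]
      have hc := pb_card hW hY h
      have h1 : ∀ x ∈ Fintype.piFinset (fun _ : Fin (l + 1) => W),
          ∑ y ∈ Fintype.piFinset (fun _ : Fin 0 => W),
            (nm (EuclideanDomain.gcd (∏ i, x i) (∏ i, y i)) : ℝ) = 1 := by
        intro x _
        have h2 : ∀ y ∈ Fintype.piFinset (fun _ : Fin 0 => W),
            (nm (EuclideanDomain.gcd (∏ i, x i) (∏ i, y i)) : ℝ) = 1 := by
          intro y _
          have h3 : ∏ i, y i = 1 := by simp
          rw [h3]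
          have h4 : IsUnit (EuclideanDomain.gcd (∏ i, x i) (1 : G)) :=
            isUnit_of_dvd_one (EuclideanDomain.gcd_dvd_right _ _)
          rw [nm_eq_one_iff.2 h4]
          simp
        rw [Finset.sum_congr rfl h2]
        simp
      rw [Finset.sum_congr rfl h1]
      have h5 : ((Fintype.piFinset (fun _ : Fin (l + 1) => W)).card : ℝ) =
          (W.card : ℝ) ^ (l + 1) := by
        simp
      rw [Finset.sum_const, nsmul_eq_mul, mul_one, h5, Nat.add_zero, ← mul_pow]
      exact pow_le_pow_left₀ (by positivity) hc _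
    · obtain ⟨m, rfl⟩ : ∃ m', m = m' + 1 := ⟨m - 1, by omega⟩
      have H1 := ih (m + 1)
      have H2 := ih m
      have hC1 := pxC_nonneg l (m + 1)
      have hC2 := pxC_nonneg l m
      intro P Q Y W hW hY h
      simp only [pxC]
      set C1 := pxC l (m + 1)
      set C2 := pxC l m
      have hc := pb_card hW hY h
      have I1 := H1 P Q Y W hW hY h
      have I2 := H2 P Q Y W hW hY h
      have hne : ∀ w ∈ W, w ≠ 0 := fun w hw => (PP_spl (hW hw)).prime.ne_zero
      have hprod : ∀ {n : ℕ} (x : Fin n → G), x ∈ Fintype.piFinset (fun _ : Fin n => W) →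
          ∏ i, x i ≠ 0 := by
        intro n x hx
        rw [Finset.prod_ne_zero_iff]
        intro i _
        exact hne _ (Fintype.mem_piFinset.1 hx i)
      -- pointwise bound
      have key : ∀ w ∈ W, ∀ x ∈ Fintype.piFinset (fun _ : Fin l => W),
          ∑ y ∈ Fintype.piFinset (fun _ : Fin (m + 1) => W),
            (nm (EuclideanDomain.gcd (w * ∏ i, x i) (∏ i, y i)) : ℝ) ≤
          ∑ y ∈ Fintype.piFinset (fun _ : Fin (m + 1) => W),
            (nm (EuclideanDomain.gcd (∏ i, x i) (∏ i, y i)) : ℝ) +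
          (m + 1) * (3 * Y) * ∑ y ∈ Fintype.piFinset (fun _ : Fin m => W),
            (nm (EuclideanDomain.gcd (∏ i, x i) (∏ i, y i)) : ℝ) := by
        intro w hw x hx
        have hwp : Prime w := (PP_spl (hW hw)).prime
        have hx0 := hprod x hx
        have step : ∀ y ∈ Fintype.piFinset (fun _ : Fin (m + 1) => W),
            (nm (EuclideanDomain.gcd (w * ∏ i, x i) (∏ i, y i)) : ℝ) ≤
            (nm (EuclideanDomain.gcd (∏ i, x i) (∏ i, y i)) : ℝ) +
            ∑ j : Fin (m + 1), if y j = w then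
              (nm (EuclideanDomain.gcd (w * ∏ i, x i) (∏ i, y i)) : ℝ) else 0 := by
          intro y hy
          by_cases hd : w ∣ ∏ i, y i
          · obtain ⟨j, _, hj⟩ := (hwp.dvd_finsetProd_iff _).1 hd
            have hj' : y j = w := (PP_dvd (hW hw) (hW (Fintype.mem_piFinset.1 hy j)) hj).symm
            have h3 : (nm (EuclideanDomain.gcd (w * ∏ i, x i) (∏ i, y i)) : ℝ) ≤
                ∑ j : Fin (m + 1), if y j = w then
                (nm (EuclideanDomain.gcd (w * ∏ i, x i) (∏ i, y i)) : ℝ) else 0 := by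
              have h4 := Finset.single_le_sum (f := fun j : Fin (m + 1) => if y j = w then
                (nm (EuclideanDomain.gcd (w * ∏ i, x i) (∏ i, y i)) : ℝ) else 0)
                (s := Finset.univ) (fun i _ => by positivity) (Finset.mem_univ j)
              simp only [hj', if_true] at h4
              exact h4
            have h5 : (0 : ℝ) ≤ (nm (EuclideanDomain.gcd (∏ i, x i) (∏ i, y i)) : ℝ) := by
              positivity
            linarith
          · have h3 : (nm (EuclideanDomain.gcd (w * ∏ i, x i) (∏ i, y i)) : ℝ) ≤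
                (nm (EuclideanDomain.gcd (∏ i, x i) (∏ i, y i)) : ℝ) := by
              exact_mod_cast pb_gcd_coprime hwp hx0 hd
            have h4 : (0 : ℝ) ≤ ∑ j : Fin (m + 1), if y j = w then
                (nm (EuclideanDomain.gcd (w * ∏ i, x i) (∏ i, y i)) : ℝ) else 0 :=
              Finset.sum_nonneg (fun i _ => by positivity)
            linarith
        refine (Finset.sum_le_sum step).trans ?_
        rw [Finset.sum_add_distrib]
        have h6 : ∑ y ∈ Fintype.piFinset (fun _ : Fin (m + 1) => W), ∑ j : Fin (m + 1),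
            (if y j = w then
              (nm (EuclideanDomain.gcd (w * ∏ i, x i) (∏ i, y i)) : ℝ) else 0) ≤
            (m + 1) * (3 * Y) * ∑ y ∈ Fintype.piFinset (fun _ : Fin m => W),
            (nm (EuclideanDomain.gcd (∏ i, x i) (∏ i, y i)) : ℝ) := by
          rw [Finset.sum_comm]
          have h7 : ∀ j ∈ (Finset.univ : Finset (Fin (m + 1))),
              ∑ y ∈ Fintype.piFinset (fun _ : Fin (m + 1) => W),
              (if y j = w then
              (nm (EuclideanDomain.gcd (w * ∏ i, x i) (∏ i, y i)) : ℝ) else 0) ≤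
              (3 * Y) * ∑ y ∈ Fintype.piFinset (fun _ : Fin m => W),
                (nm (EuclideanDomain.gcd (∏ i, x i) (∏ i, y i)) : ℝ) := by
            intro j _
            rw [pb_sum_insert W j]
            have h8 : ∀ a ∈ W, ∑ y ∈ Fintype.piFinset (fun _ : Fin m => W),
                (if (Fin.insertNth j a y : Fin (m + 1) → G) j = w then
                (nm (EuclideanDomain.gcd (w * ∏ i, x i)
                  (∏ i, (Fin.insertNth j a y : Fin (m + 1) → G) i)) : ℝ) else 0) =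
                if a = w then ∑ y ∈ Fintype.piFinset (fun _ : Fin m => W),
                  (nm (EuclideanDomain.gcd (w * ∏ i, x i) (w * ∏ i, y i)) : ℝ) else 0 := by
              intro a _
              by_cases ha : a = w
              · subst ha
                simp only [Fin.insertNth_apply_same, if_true, pb_prod_insert]
              · simp [ha]
            rw [Finset.sum_congr rfl h8, Finset.sum_ite_eq' W w, if_pos hw, Finset.mul_sum]
            apply Finset.sum_le_sum
            intro y _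
            have h9 := pb_gcd_mul (w := w) (a := ∏ i, x i) (b := ∏ i, y i) (hne w hw) hx0
            have h10 : (nm (EuclideanDomain.gcd (w * ∏ i, x i) (w * ∏ i, y i)) : ℝ) ≤
                (nm w : ℝ) * (nm (EuclideanDomain.gcd (∏ i, x i) (∏ i, y i)) : ℝ) := by
              exact_mod_cast h9
            refine h10.trans ?_
            exact mul_le_mul_of_nonneg_right (h w hw) (by positivity)
          refine (Finset.sum_le_sum h7).trans ?_
          rw [Finset.sum_const]
          simp only [Finset.card_univ, Fintype.card_fin, nsmul_eq_mul]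
          push_cast
          apply le_of_eq
          ring
        linarith
      -- sum over the first coordinate
      rw [pb_sum_insert W (0 : Fin (l + 1))]
      simp only [pb_prod_insert]
      have h11 : ∑ w ∈ W, ∑ x ∈ Fintype.piFinset (fun _ : Fin l => W),
          ∑ y ∈ Fintype.piFinset (fun _ : Fin (m + 1) => W),
            (nm (EuclideanDomain.gcd (w * ∏ i, x i) (∏ i, y i)) : ℝ) ≤
          ∑ _w ∈ W, (C1 * Y ^ (l + (m + 1)) + (m + 1) * (3 * Y) * (C2 * Y ^ (l + m))) := by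
        apply Finset.sum_le_sum
        intro w hw
        refine (Finset.sum_le_sum (key w hw)).trans ?_
        rw [Finset.sum_add_distrib, ← Finset.mul_sum]
        have h12 : (0 : ℝ) ≤ (m + 1) * (3 * Y) := by positivity
        exact add_le_add I1 (mul_le_mul_of_nonneg_left I2 h12)
      refine h11.trans ?_
      rw [Finset.sum_const, nsmul_eq_mul]
      have h13 : (0 : ℝ) ≤ C1 * Y ^ (l + (m + 1)) + (m + 1) * (3 * Y) * (C2 * Y ^ (l + m)) := by
        positivity
      refine (mul_le_mul_of_nonneg_right hc h13).trans ?_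
      apply le_of_eq
      have e1 : Y ^ (l + 1 + (m + 1)) = Y ^ (l + m) * Y ^ 2 := by rw [← pow_add]; ring_nf
      have e2 : Y ^ (l + (m + 1)) = Y ^ (l + m) * Y := by rw [← pow_succ]; ring_nf
      rw [e1, e2]
      ring

/-- The proof of `pairsU` with explicit constants. In `pairsA` (Lib_MP_f1a94e_mr/PairsA.lean) the constant is
`9 * 2 ^ (l + l)`. In `pb_main` (PairsB.lean) the recursion is `C (l+1) (m+1) = 3 C l (m+1) + 9 (m+1) C l m`,
`C 0 m = 3 ^ m`, `C l 0 = 3 ^ l`, so `C l m ≤ (12 (m+1)) ^ l 3 ^ m`, hence `C l l ≤ (36 (l+1)) ^ l`, and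
`9 * 4 ^ l * (36 (l+1)) ^ l = 9 * (144 (l+1)) ^ l`. (Copy the three proofs.) -/
theorem pairsX (l : ℕ) (P Q Y X : ℝ) (W : Finset G) (hW : W ⊆ PP P Q) (hY : 1 ≤ Y)
    (hX : 0 ≤ X) (h : ∀ w ∈ W, Y < (nm w : ℝ) ∧ (nm w : ℝ) ≤ 3 * Y) :
    (Set.ncard {q : ((Fin l → G) × G) × ((Fin l → G) × G) |
      (∀ i, q.1.1 i ∈ W) ∧ q.1.2 ∈ V X ∧ (∀ i, q.2.1 i ∈ W) ∧ q.2.2 ∈ V X ∧
      pr ((∏ i, q.1.1 i) * q.1.2) = pr ((∏ i, q.2.1 i) * q.2.2)} : ℝ) ≤
      9 * (144 * ((l : ℝ) + 1)) ^ l * Y ^ l * X := by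
  classical
  have hC1 : (0 : ℝ) < 9 * 2 ^ (l + l) := by positivity
  have H1 := pairsAX l
  have H2 : ∀ (P Q Y : ℝ) (W : Finset G), W ⊆ PP P Q → 1 ≤ Y →
      (∀ w ∈ W, (nm w : ℝ) ≤ 3 * Y) →
      ∑ x ∈ Fintype.piFinset (fun _ : Fin l => W), ∑ y ∈ Fintype.piFinset (fun _ : Fin l => W),
        (nm (EuclideanDomain.gcd (∏ i, x i) (∏ i, y i)) : ℝ) ≤
        (36 * ((l : ℝ) + 1)) ^ l * Y ^ (2 * l) := by
    intro P Q Y W hW hY h
    have h1 := px_main l l P Q Y W hW hY h
    rw [← two_mul] at h1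
    refine h1.trans ?_
    apply mul_le_mul_of_nonneg_right _ (by positivity)
    refine (pxC_le l l).trans (le_of_eq ?_)
    rw [← mul_pow]
    congr 1
    ring
  set C1 : ℝ := 9 * 2 ^ (l + l) with hC1def
  set C2 : ℝ := (36 * ((l : ℝ) + 1)) ^ l with hC2def
  have hconst : 9 * (144 * ((l : ℝ) + 1)) ^ l = C1 * C2 := by
    rw [hC1def, hC2def]
    have h1 : (2 : ℝ) ^ (l + l) = 4 ^ l := by
      rw [← two_mul, pow_mul]
      norm_num
    rw [h1, mul_assoc, ← mul_pow]
    congr 2
    ring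
  rw [hconst]
  have I2 := H2 P Q Y W hW hY (fun w hw => (h w hw).2)
  set WW := Fintype.piFinset (fun _ : Fin l => W) with hWW
  have hset : {q : ((Fin l → G) × G) × ((Fin l → G) × G) |
      (∀ i, q.1.1 i ∈ W) ∧ q.1.2 ∈ V X ∧ (∀ i, q.2.1 i ∈ W) ∧ q.2.2 ∈ V X ∧
      pr ((∏ i, q.1.1 i) * q.1.2) = pr ((∏ i, q.2.1 i) * q.2.2)} =
      ((((WW ×ˢ V X) ×ˢ (WW ×ˢ V X)).filter
        (fun q => pr ((∏ i, q.1.1 i) * q.1.2) = pr ((∏ i, q.2.1 i) * q.2.2)) :
        Finset (((Fin l → G) × G) × ((Fin l → G) × G))) :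
        Set (((Fin l → G) × G) × ((Fin l → G) × G))) := by
    ext q
    simp only [Set.mem_ofPred_eq, Finset.coe_filter, Finset.mem_product, hWW,
      Fintype.mem_piFinset]
    tauto
  rw [hset, Set.ncard_coe_finset]
  have hin : ∀ x ∈ WW, ∀ y ∈ WW, (((V X ×ˢ V X).filter
      (fun p => pr ((∏ i, x i) * p.1) = pr ((∏ i, y i) * p.2))).card : ℝ) ≤
      C1 * X / Y ^ l * (nm (EuclideanDomain.gcd (∏ i, x i) (∏ i, y i)) : ℝ) := by
    intro x hx y hy
    rw [hWW, Fintype.mem_piFinset] at hx hy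
    have h1 := H1 P Q X x y (fun i => hW (hx i)) (fun i => hW (hy i)) hX
    have hs : {p : G × G | p.1 ∈ V X ∧ p.2 ∈ V X ∧
        pr ((∏ i, x i) * p.1) = pr ((∏ i, y i) * p.2)} =
        (((V X ×ˢ V X).filter
        (fun p => pr ((∏ i, x i) * p.1) = pr ((∏ i, y i) * p.2)) : Finset (G × G)) :
          Set (G × G)) := by
      ext p
      simp only [Set.mem_ofPred_eq, Finset.coe_filter, Finset.mem_product]
      tauto
    rw [hs, Set.ncard_coe_finset] at h1
    refine h1.trans ?_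
    have hYl : (0 : ℝ) < Y ^ l := by positivity
    have h2 : Y ^ l ≤ Real.sqrt (nm (∏ i, x i) * nm (∏ i, y i) : ℝ) := by
      apply Real.le_sqrt_of_sq_le
      rw [sq]
      exact mul_le_mul (pu_pow_le hY (fun w hw => (h w hw).1) x hx)
        (pu_pow_le hY (fun w hw => (h w hw).1) y hy) hYl.le (by positivity)
    have h3 : C1 * X / Y ^ l * (nm (EuclideanDomain.gcd (∏ i, x i) (∏ i, y i)) : ℝ) =
        C1 * X * (nm (EuclideanDomain.gcd (∏ i, x i) (∏ i, y i)) : ℝ) / Y ^ l := by ring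
    rw [h3]
    exact div_le_div_of_nonneg_left (by positivity) hYl h2
  have hcard : ((((WW ×ˢ V X) ×ˢ (WW ×ˢ V X)).filter
        (fun q => pr ((∏ i, q.1.1 i) * q.1.2) = pr ((∏ i, q.2.1 i) * q.2.2))).card : ℝ) =
      ∑ x ∈ WW, ∑ y ∈ WW, (((V X ×ˢ V X).filter
      (fun p => pr ((∏ i, x i) * p.1) = pr ((∏ i, y i) * p.2))).card : ℝ) := by
    simp only [Finset.card_filter, Finset.sum_product]
    push_cast
    apply Finset.sum_congr rfl
    intro x _
    rw [Finset.sum_comm]
  rw [hcard]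
  calc ∑ x ∈ WW, ∑ y ∈ WW, (((V X ×ˢ V X).filter
      (fun p => pr ((∏ i, x i) * p.1) = pr ((∏ i, y i) * p.2))).card : ℝ)
      ≤ ∑ x ∈ WW, ∑ y ∈ WW,
        C1 * X / Y ^ l * (nm (EuclideanDomain.gcd (∏ i, x i) (∏ i, y i)) : ℝ) :=
        Finset.sum_le_sum (fun x hx => Finset.sum_le_sum (fun y hy => hin x hx y hy))
    _ = C1 * X / Y ^ l * ∑ x ∈ WW, ∑ y ∈ WW,
        (nm (EuclideanDomain.gcd (∏ i, x i) (∏ i, y i)) : ℝ) := by
        rw [Finset.mul_sum]
        apply Finset.sum_congr rfl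
        intro x _
        rw [Finset.mul_sum]
    _ ≤ C1 * X / Y ^ l * (C2 * Y ^ (2 * l)) :=
        mul_le_mul_of_nonneg_left I2 (by positivity)
    _ = C1 * C2 * Y ^ l * X := by
        have hYl : (Y ^ l : ℝ) ≠ 0 := by positivity
        have e : Y ^ (2 * l) = Y ^ l * Y ^ l := by rw [two_mul, pow_add]
        rw [e]
        field_simp

end Pool.Agent.GaussMR
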