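import Pool.Agent.Lib_MP_f1a94e_mr.Stage
import Pool.Agent.Lib_MP_f1a94e_mr.Ball0

/-!
# Piece STAGEM: one stage, without the error term `T / X`
-/

set_option autoImplicit false

namespace Pool.Agent.GaussMR

theorem sm_mul_star (z : G) : z * star z = ((nm z : ℕ) : G) := by
  apply Zsqrtd.ext
  · have := nm_eq z
    simp only [Zsqrtd.re_mul, Zsqrtd.re_star, Zsqrtd.im_star, Zsqrtd.re_natCast]
    rw [this]
    ring
  · simp only [Zsqrtd.im_mul, Zsqrtd.re_star, Zsqrtd.im_star, Zsqrtd.im_natCast]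
    ring

open Classical in
/-- the substitution `z = star w * z'` -/
theorem sm_sub (F : G → ℝ) (hF : PM F) {w : G} (hw : Spl w) (X Y : ℝ) (k : ℤ) (hX : 0 ≤ X)
    (hYX : Y ≤ X) :
    (F w : ℂ) * xi (-k) w * ∑ z ∈ (V Y).filter (fun z => star w ∣ z), (F z : ℂ) * xi (-k) z =
      ∑ z ∈ (V (3 * X)).filter (fun z => ¬ w ∣ z ∧ (nm w : ℝ) * nm z ≤ Y),
        (F z : ℂ) * xi (-k) z := by
  have hw' : Spl (star w) := hw.conj
  have hw0 : w ≠ 0 := ne_zero_of_odd hw.odd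
  have hw0' : star w ≠ 0 := ne_zero_of_odd hw'.odd
  have hnw1 : (1 : ℝ) ≤ nm w := by exact_mod_cast nm_pos hw0
  rw [Finset.mul_sum]
  symm
  refine Finset.sum_bij (fun z _ => star w * z) ?_ ?_ ?_ ?_
  · intro z hz
    rw [Finset.mem_filter, mem_V] at hz
    obtain ⟨⟨h1, h2, h3⟩, h4, h5⟩ := hz
    rw [Finset.mem_filter, mem_V]
    refine ⟨⟨?_, odd_nm_mul.mpr ⟨hw'.odd, h2⟩, ?_⟩, dvd_mul_right _ _⟩
    · rw [nm_mul, nm_star]
      push_cast
      exact h5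
    · refine (prim_mul_iff hw' h3).mpr ?_
      rwa [star_star]
  · intro z _ z' _ h
    exact mul_left_cancel₀ hw0' h
  · intro z' hz'
    rw [Finset.mem_filter, mem_V] at hz'
    obtain ⟨⟨h1, h2, h3⟩, ⟨z, rfl⟩⟩ := hz'
    have hz2 : Prim z := (prim_of_mul h3).2
    refine ⟨z, ?_, rfl⟩
    rw [nm_mul, nm_star] at h1
    push_cast at h1
    rw [Finset.mem_filter, mem_V]
    refine ⟨⟨?_, (odd_nm_mul.mp h2).2, hz2⟩, ?_, h1⟩
    · have h5 : (0 : ℝ) ≤ nm z := Nat.cast_nonneg _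
      have h6 : (nm z : ℝ) ≤ nm w * nm z := by nlinarith
      linarith
    · have := (prim_mul_iff hw' hz2).mp h3
      rwa [star_star] at this
  · intro z hz
    rw [Finset.mem_filter, mem_V] at hz
    have hz1 := hz.1.2.1
    have e1 : (F w : ℂ) * (F (star w * z) : ℂ) = (F z : ℂ) := by
      rw [hF.mul (star w) z hw'.odd hz1, hF.conj w hw.odd]
      have := hF.sq hw.odd
      have h2 : F w * (F w * F z) = F z := by
        calc F w * (F w * F z) = F w ^ 2 * F z := by ring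
          _ = F z := by rw [this, one_mul]
      exact_mod_cast h2
    have e2 : xi (-k) w * xi (-k) (star w * z) = xi (-k) z := by
      rw [← xi_mul, ← mul_assoc, sm_mul_star, xi_natCast_mul _ (nm_pos hw0)]
    calc (F z : ℂ) * xi (-k) z = ((F w : ℂ) * (F (star w * z) : ℂ)) *
          (xi (-k) w * xi (-k) (star w * z)) := by rw [e1, e2]
      _ = _ := by ring

open Classical in
/-- number of representations -/
noncomputable def smc (P Q ρ X : ℝ) (z : G) : ℝ :=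
  ∑ v ∈ Finset.range (nv Q ρ), ∑ w ∈ blk P Q ρ v,
    if ¬ w ∣ z ∧ (nm w : ℝ) * nm z ≤ X * Real.exp (-(v * ρ)) then 1 else 0

theorem sm_A2_eq (F : G → ℝ) (hF : PM F) (P Q ρ X : ℝ) (k : ℤ) (hρ : 0 < ρ) (hX : 0 ≤ X) :
    A2 F P Q ρ X k = ∑ z ∈ V (3 * X), ((smc P Q ρ X z : ℂ) * (F z : ℂ)) * xi (-k) z := by
  classical
  unfold A2
  have h1 : ∀ v ∈ Finset.range (nv Q ρ), ∑ w ∈ blk P Q ρ v, (F w : ℂ) * xi (-k) w *
      ∑ z ∈ (V (X * Real.exp (-(v * ρ)))).filter (fun z => star w ∣ z), (F z : ℂ) * xi (-k) z =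
      ∑ w ∈ blk P Q ρ v, ∑ z ∈ V (3 * X),
        if ¬ w ∣ z ∧ (nm w : ℝ) * nm z ≤ X * Real.exp (-(v * ρ)) then
          (F z : ℂ) * xi (-k) z else 0 := by
    intro v _
    refine Finset.sum_congr rfl fun w hw => ?_
    have hsp := PP_spl (mem_blk.mp hw).1
    have hexp : Real.exp (-(v * ρ)) ≤ 1 := by
      rw [Real.exp_le_one_iff]
      have : (0 : ℝ) ≤ v * ρ := by positivity
      linarith
    rw [sm_sub F hF hsp X _ k hX (by nlinarith), Finset.sum_filter]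
  rw [Finset.sum_congr rfl h1]
  have h2 : ∀ v ∈ Finset.range (nv Q ρ), (∑ w ∈ blk P Q ρ v, ∑ z ∈ V (3 * X),
        if ¬ w ∣ z ∧ (nm w : ℝ) * nm z ≤ X * Real.exp (-(v * ρ)) then
          (F z : ℂ) * xi (-k) z else 0) = ∑ z ∈ V (3 * X), ∑ w ∈ blk P Q ρ v,
        if ¬ w ∣ z ∧ (nm w : ℝ) * nm z ≤ X * Real.exp (-(v * ρ)) then
          (F z : ℂ) * xi (-k) z else 0 := fun v _ => Finset.sum_comm
  rw [Finset.sum_congr rfl h2, Finset.sum_comm]
  refine Finset.sum_congr rfl fun z _ => ?_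
  unfold smc
  push_cast
  rw [Finset.sum_mul, Finset.sum_mul]
  refine Finset.sum_congr rfl fun v _ => ?_
  rw [Finset.sum_mul, Finset.sum_mul]
  refine Finset.sum_congr rfl fun w _ => ?_
  split_ifs <;> simp

open Classical in
theorem smc_le (P Q ρ X : ℝ) (hρ : 0 < ρ) (hρ1 : ρ ≤ 1) (hX : 0 ≤ X) (z : G) :
    smc P Q ρ X z ≤ ∑ w ∈ PP P Q, if (nm w : ℝ) ^ 2 * nm z ≤ 3 * X then 1 else 0 := by
  have hexp : Real.exp ρ ≤ 3 := by
    have := Real.exp_one_lt_d9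
    exact (Real.exp_le_exp.mpr hρ1).trans (by linarith)
  refine le_trans ?_ (sum_blk_le (P := P) (Q := Q) hρ
    (fun w => if (nm w : ℝ) ^ 2 * nm z ≤ 3 * X then 1 else 0)
    (fun w _ => by split_ifs <;> norm_num))
  unfold smc
  refine Finset.sum_le_sum fun v _ => Finset.sum_le_sum fun w hw => ?_
  by_cases h : ¬ w ∣ z ∧ (nm w : ℝ) * nm z ≤ X * Real.exp (-(v * ρ))
  · have h2 : (nm w : ℝ) ^ 2 * nm z ≤ 3 * X := by
      have h3 := (mem_blk.mp hw).2.2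
      calc (nm w : ℝ) ^ 2 * nm z = nm w * ((nm w : ℝ) * nm z) := by ring
        _ ≤ Real.exp ((v + 1) * ρ) * (X * Real.exp (-(v * ρ))) :=
            mul_le_mul h3 h.2 (by positivity) (by positivity)
        _ = Real.exp ρ * X := by
            rw [show (Real.exp ((v + 1) * ρ) * (X * Real.exp (-(v * ρ))) : ℝ) =
              (Real.exp ((v + 1) * ρ) * Real.exp (-(v * ρ))) * X by ring, ← Real.exp_add]
            congr 2
            ring
        _ ≤ 3 * X := by nlinarith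
    rw [if_pos h, if_pos h2]
  · rw [if_neg h]
    split_ifs <;> norm_num

open Classical in
/-- the second moment of the number of representations -/
theorem sm_second (P Q X : ℝ) (hP : 1 ≤ P) (hX : 0 ≤ X) :
    ∑ z ∈ V (3 * X), (∑ w ∈ PP P Q, if (nm w : ℝ) ^ 2 * nm z ≤ 3 * X then (1 : ℝ) else 0) ^ 2 ≤
      54 * X * Ls P Q := by
  have hpos : ∀ w ∈ PP P Q, (0 : ℝ) < nm w := by
    intro w hw
    have := (mem_PP.mp hw).1
    linarith
  set h : G → G → ℝ := fun w z => if (nm w : ℝ) ^ 2 * nm z ≤ 3 * X then 1 else 0 with hh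
  have hh0 : ∀ w z, 0 ≤ h w z := by
    intro w z
    simp only [hh]
    split_ifs <;> norm_num
  have hh1 : ∀ w z, h w z ≤ 1 := by
    intro w z
    simp only [hh]
    split_ifs <;> norm_num
  -- one column
  have hcol : ∀ w ∈ PP P Q, ∑ z ∈ V (3 * X), h w z ≤ 27 * X / (nm w : ℝ) ^ 2 := by
    intro w hw
    have hp := hpos w hw
    have h1 : ∑ z ∈ V (3 * X), h w z =
        (((V (3 * X)).filter (fun z => (nm w : ℝ) ^ 2 * nm z ≤ 3 * X)).card : ℝ) := by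
      rw [Finset.card_filter]
      push_cast
      rfl
    rw [h1]
    have h2 : (V (3 * X)).filter (fun z => (nm w : ℝ) ^ 2 * nm z ≤ 3 * X) ⊆
        (ball (3 * X / (nm w : ℝ) ^ 2)).filter (fun z => z ≠ 0) := by
      intro z hz
      rw [Finset.mem_filter] at hz ⊢
      refine ⟨?_, V_ne_zero hz.1⟩
      rw [mem_ball, le_div_iff₀ (by positivity), mul_comm]
      exact hz.2
    have h3 : (((V (3 * X)).filter (fun z => (nm w : ℝ) ^ 2 * nm z ≤ 3 * X)).card : ℝ) ≤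
        (((ball (3 * X / (nm w : ℝ) ^ 2)).filter (fun z => z ≠ 0)).card : ℝ) := by
      exact Nat.cast_le.mpr (Finset.card_le_card h2)
    refine h3.trans ((card_ball_le _ (by positivity)).trans (le_of_eq ?_))
    ring
  -- pairs
  have hpair : ∀ w1 ∈ PP P Q, ∀ w2 ∈ PP P Q, ∑ z ∈ V (3 * X), h w1 z * h w2 z ≤
      (if nm w1 ≤ nm w2 then 27 * X / (nm w2 : ℝ) ^ 2 else 0) +
        (if nm w2 ≤ nm w1 then 27 * X / (nm w1 : ℝ) ^ 2 else 0) := by
    intro w1 hw1 w2 hw2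
    have p1 := hpos w1 hw1
    have p2 := hpos w2 hw2
    have q1 : (0 : ℝ) ≤ if nm w1 ≤ nm w2 then 27 * X / (nm w2 : ℝ) ^ 2 else 0 := by
      split_ifs
      · positivity
      · exact le_rfl
    have q2 : (0 : ℝ) ≤ if nm w2 ≤ nm w1 then 27 * X / (nm w1 : ℝ) ^ 2 else 0 := by
      split_ifs
      · positivity
      · exact le_rfl
    rcases le_total (nm w1) (nm w2) with hle | hle
    · have e1 : ∑ z ∈ V (3 * X), h w1 z * h w2 z ≤ ∑ z ∈ V (3 * X), h w2 z :=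
        Finset.sum_le_sum fun z _ => by nlinarith [hh0 w1 z, hh1 w1 z, hh0 w2 z]
      have e2 := hcol w2 hw2
      have e3 : (if nm w1 ≤ nm w2 then 27 * X / (nm w2 : ℝ) ^ 2 else 0) =
          27 * X / (nm w2 : ℝ) ^ 2 := if_pos hle
      linarith
    · have e1 : ∑ z ∈ V (3 * X), h w1 z * h w2 z ≤ ∑ z ∈ V (3 * X), h w1 z :=
        Finset.sum_le_sum fun z _ => by nlinarith [hh0 w2 z, hh1 w2 z, hh0 w1 z]
      have e2 := hcol w1 hw1
      have e3 : (if nm w2 ≤ nm w1 then 27 * X / (nm w1 : ℝ) ^ 2 else 0) =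
          27 * X / (nm w1 : ℝ) ^ 2 := if_pos hle
      linarith
  -- number of smaller primes
  have hcount : ∀ w2 ∈ PP P Q, ∑ w1 ∈ PP P Q, (if nm w1 ≤ nm w2 then 27 * X / (nm w2 : ℝ) ^ 2
      else 0) ≤ 27 * X * (1 / (nm w2 : ℝ)) := by
    intro w2 hw2
    have p2 := hpos w2 hw2
    rw [← Finset.sum_filter, Finset.sum_const, nsmul_eq_mul]
    have e1 : ((PP P Q).filter (fun w1 => nm w1 ≤ nm w2)).card ≤ nm w2 := by
      have hinj : Set.InjOn nm (((PP P Q).filter (fun w1 => nm w1 ≤ nm w2) : Finset G) : Set G) := by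
        intro w hw w' hw' he
        rw [Finset.mem_coe, Finset.mem_filter] at hw hw'
        exact PP_inj hw.1 hw'.1 he
      have hmaps : ∀ w ∈ (PP P Q).filter (fun w1 => nm w1 ≤ nm w2), nm w ∈ Finset.Icc 1 (nm w2) := by
        intro w hw
        rw [Finset.mem_filter] at hw
        rw [Finset.mem_Icc]
        refine ⟨?_, hw.2⟩
        have := hpos w hw.1
        have h3 : 0 < nm w := by exact_mod_cast this
        exact h3
      have := Finset.card_le_card_of_injOn nm hmaps hinj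
      simpa using this
    have e2 : (((PP P Q).filter (fun w1 => nm w1 ≤ nm w2)).card : ℝ) ≤ nm w2 := by
      exact_mod_cast e1
    calc (((PP P Q).filter (fun w1 => nm w1 ≤ nm w2)).card : ℝ) * (27 * X / (nm w2 : ℝ) ^ 2)
        ≤ (nm w2 : ℝ) * (27 * X / (nm w2 : ℝ) ^ 2) :=
          mul_le_mul_of_nonneg_right e2 (by positivity)
      _ = 27 * X * (1 / (nm w2 : ℝ)) := by field_simp
  have hsq : ∀ z, (∑ w ∈ PP P Q, h w z) ^ 2 = ∑ w1 ∈ PP P Q, ∑ w2 ∈ PP P Q, h w1 z * h w2 z := by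
    intro z
    rw [sq, Finset.sum_mul_sum]
  calc ∑ z ∈ V (3 * X), (∑ w ∈ PP P Q, h w z) ^ 2
      = ∑ z ∈ V (3 * X), ∑ w1 ∈ PP P Q, ∑ w2 ∈ PP P Q, h w1 z * h w2 z :=
        Finset.sum_congr rfl fun z _ => hsq z
    _ = ∑ w1 ∈ PP P Q, ∑ w2 ∈ PP P Q, ∑ z ∈ V (3 * X), h w1 z * h w2 z := by
        rw [Finset.sum_comm]
        exact Finset.sum_congr rfl fun w1 _ => Finset.sum_comm
    _ ≤ ∑ w1 ∈ PP P Q, ∑ w2 ∈ PP P Q,
          ((if nm w1 ≤ nm w2 then 27 * X / (nm w2 : ℝ) ^ 2 else 0) +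
            (if nm w2 ≤ nm w1 then 27 * X / (nm w1 : ℝ) ^ 2 else 0)) :=
        Finset.sum_le_sum fun w1 h1 => Finset.sum_le_sum fun w2 h2 => hpair w1 h1 w2 h2
    _ = ∑ w2 ∈ PP P Q, ∑ w1 ∈ PP P Q, (if nm w1 ≤ nm w2 then 27 * X / (nm w2 : ℝ) ^ 2 else 0) +
          ∑ w1 ∈ PP P Q, ∑ w2 ∈ PP P Q,
            (if nm w2 ≤ nm w1 then 27 * X / (nm w1 : ℝ) ^ 2 else 0) := by
        simp only [Finset.sum_add_distrib]
        congr 1
        exact Finset.sum_comm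
    _ ≤ ∑ w2 ∈ PP P Q, 27 * X * (1 / (nm w2 : ℝ)) + ∑ w1 ∈ PP P Q, 27 * X * (1 / (nm w1 : ℝ)) :=
        add_le_add (Finset.sum_le_sum hcount) (Finset.sum_le_sum hcount)
    _ = 54 * X * Ls P Q := by
        rw [← Finset.mul_sum]
        unfold Ls
        ring

/-- better bound for the non primitive terms: with `z = star w * z'` (`z'` primitive, `¬ w ∣ z'`, cf.
`prim_mul_iff`) one has `F w F z xi_{-k}(w z) = F z' xi_{-k}(z')` (`F w F (star w) = 1`,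
`w * star w = nm w` has direction `1`: `xi_natCast_mul`). So
`A2 = ∑_{z'} c(z') F z' xi_{-k}(z')`, `c(z')` = number of pairs `(v, w)`, `w ∈ blk v`, `¬ w ∣ z'`,
`nm w * nm z' ≤ X e^(-vρ)`; such pairs have `nm w ^ 2 * nm z' ≤ X e^ρ ≤ 3 X`, in particular all `z'` with
`c(z') ≠ 0` lie in `V (3 X)`. `large_sieve` on `V (3 X)`: `≤ C (T + 3 X) ∑ c(z')²`, and
`∑ c(z')² ≤ ∑_{w1, w2} #{z' ≠ 0 : nm z' ≤ 3 X / max(nm w1, nm w2)²} ≤ 2 ∑_{w2} ∑_{nm w1 ≤ nm w2} 27 X / (nm w2)²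
≤ 54 X ∑_{w2} 1 / nm w2 = 54 X Ls` (`card_ball_le`; the number of `w1` in `PP` with `nm w1 ≤ nm w2` is at
most `nm w2` because distinct elements have distinct norms, `PP_inj`). -/
theorem A2_small : ∃ C : ℝ, 0 < C ∧ ∀ (F : G → ℝ), PM F → ∀ (P Q ρ X : ℝ) (T : ℕ),
    2 ≤ P → 0 < ρ → ρ ≤ 1 → 1 ≤ X → (T : ℝ) ≤ X →
    ∑ k ∈ fr T, ‖A2 F P Q ρ X k‖ ^ 2 ≤ C * X ^ 2 * Ls P Q := by
  classical
  obtain ⟨C1, hC1, hls⟩ := large_sieve
  refine ⟨216 * C1, by positivity, ?_⟩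
  intro F hF P Q ρ X T hP hρ hρ1 hX hTX
  have hX0 : 0 < X := by linarith
  simp only [sm_A2_eq F hF P Q ρ X _ hρ hX0.le]
  refine (hls (3 * X) T (fun z => (smc P Q ρ X z : ℂ) * (F z : ℂ)) (by linarith)).trans ?_
  have h1 : ∑ z ∈ V (3 * X), ‖(smc P Q ρ X z : ℂ) * (F z : ℂ)‖ ^ 2 ≤ 54 * X * Ls P Q := by
    refine le_trans (Finset.sum_le_sum fun z hz => ?_) (sm_second P Q X (by linarith) hX0.le)
    rw [norm_mul, hF.norm (mem_V.mp hz).2.1, mul_one, Complex.norm_real, Real.norm_eq_abs,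
      sq_abs]
    have h2 : 0 ≤ smc P Q ρ X z := by
      unfold smc
      refine Finset.sum_nonneg fun v _ => Finset.sum_nonneg fun w _ => ?_
      split_ifs <;> norm_num
    exact pow_le_pow_left₀ h2 (smc_le P Q ρ X hρ hρ1 hX0.le z) 2
  have h3 : 0 ≤ Ls P Q := Finset.sum_nonneg fun w _ => by positivity
  calc C1 * (T + 3 * X) * ∑ z ∈ V (3 * X), ‖(smc P Q ρ X z : ℂ) * (F z : ℂ)‖ ^ 2
      ≤ C1 * (X + 3 * X) * (54 * X * Ls P Q) := by
        apply mul_le_mul _ h1 (Finset.sum_nonneg fun _ _ => by positivity) (by positivity)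
        apply mul_le_mul_of_nonneg_left _ hC1.le
        linarith
    _ = 216 * C1 * X ^ 2 * Ls P Q := by ring

/-- as `stage` (Lib_MP_f1a94e_mr/Stage.lean), with `A2_small` in place of `A2_bound` -/
theorem stageM : ∃ C : ℝ, 0 < C ∧ ∀ (F : G → ℝ), PM F → ∀ (P Q ρ X : ℝ) (T : ℕ),
    2 ≤ P → P ≤ Q → Q ^ 20 ≤ X → 0 < ρ → ρ ≤ 1 → X ^ (-(1 / 4 : ℝ)) ≤ ρ → (T : ℝ) ≤ X →
    1 ≤ Ls P Q →
    ∑ k ∈ fr T, ‖(Ls P Q : ℂ) * fc F X k - UZ F P Q ρ X k‖ ^ 2 ≤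
      C * X ^ 2 * Ls P Q ^ 2 * (1 / Ls P Q + ρ) := by
  classical
  obtain ⟨C1, hC1, hls⟩ := large_sieve
  obtain ⟨C2, hC2, htk⟩ := TK
  obtain ⟨C3, hC3, hann⟩ := annulus
  obtain ⟨C4, hC4, hA2s⟩ := A2_small
  refine ⟨3 * (4 * C1 * C2 + C4 + 16 * C1 * C3), by positivity, ?_⟩
  intro F hF P Q ρ X T hP hPQ hQX hρ hρ1 hXρ hTX hLs
  have hQ2 : 2 ≤ Q := hP.trans hPQ
  have hX1 : 1 ≤ X := (one_le_pow₀ (by linarith : (1 : ℝ) ≤ Q)).trans hQX
  have hX0 : 0 < X := by linarith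
  have hLs0 : 0 < Ls P Q := by linarith
  set L := Ls P Q with hL
  -- the three parts
  have hdec : ∀ k, (L : ℂ) * fc F X k - UZ F P Q ρ X k =
      ∑ z ∈ V X, ((F z : ℂ) * ((L - om P Q z : ℝ) : ℂ)) * xi (-k) z - A2 F P Q ρ X k -
        A3 F P Q ρ X k := by
    intro k
    rw [stage_id F hF P Q ρ X k (by linarith) hPQ hρ hX1]
    have e1 : ∑ z ∈ V X, ((F z : ℂ) * ((L - om P Q z : ℝ) : ℂ)) * xi (-k) z =
        (L : ℂ) * fc F X k - ∑ z ∈ V X, (F z : ℂ) * (om P Q z : ℂ) * xi (-k) z := by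
      rw [fc, Finset.mul_sum, ← Finset.sum_sub_distrib]
      refine Finset.sum_congr rfl fun z _ => ?_
      push_cast
      ring
    rw [e1]
    ring
  have h3 : ∀ a b c : ℂ, ‖a - b - c‖ ^ 2 ≤ 3 * (‖a‖ ^ 2 + ‖b‖ ^ 2 + ‖c‖ ^ 2) := by
    intro a b c
    have e1 : ‖a - b - c‖ ≤ ‖a‖ + ‖b‖ + ‖c‖ :=
      (norm_sub_le _ _).trans (add_le_add_left (norm_sub_le _ _) _)
    have e2 := pow_le_pow_left₀ (norm_nonneg _) e1 2
    nlinarith [sq_nonneg (‖a‖ - ‖b‖), sq_nonneg (‖b‖ - ‖c‖), sq_nonneg (‖a‖ - ‖c‖)]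
  -- first part
  have hA1 : ∑ k ∈ fr T, ‖∑ z ∈ V X, ((F z : ℂ) * ((L - om P Q z : ℝ) : ℂ)) * xi (-k) z‖ ^ 2 ≤
      4 * C1 * C2 * X ^ 2 * L := by
    refine (hls X T (fun z => (F z : ℂ) * ((L - om P Q z : ℝ) : ℂ)) hX1).trans ?_
    have e1 : ∑ z ∈ V X, ‖(F z : ℂ) * ((L - om P Q z : ℝ) : ℂ)‖ ^ 2 =
        ∑ z ∈ V X, (om P Q z - L) ^ 2 := by
      refine Finset.sum_congr rfl fun z hz => ?_
      rw [norm_mul, hF.norm (mem_V.mp hz).2.1, one_mul, Complex.norm_real, Real.norm_eq_abs,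
        sq_abs]
      ring
    rw [e1]
    have e2 := htk P Q X hP hPQ hQX
    have e3 : C2 * X * (L + 1) ≤ C2 * X * (2 * L) := by
      gcongr
      linarith
    calc C1 * (T + X) * ∑ z ∈ V X, (om P Q z - L) ^ 2 ≤ C1 * (X + X) * (C2 * X * (2 * L)) := by
          have e4 : 0 ≤ ∑ z ∈ V X, (om P Q z - L) ^ 2 := Finset.sum_nonneg fun _ _ => sq_nonneg _
          gcongr
          exact e2.trans e3
      _ = 4 * C1 * C2 * X ^ 2 * L := by ring
  -- third part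
  have hA3 : ∑ k ∈ fr T, ‖A3 F P Q ρ X k‖ ^ 2 ≤ 16 * C1 * C3 * X ^ 2 * L ^ 2 * ρ := by
    have hexp : Real.exp ρ ≤ 3 := by
      have := Real.exp_one_lt_d9
      exact (Real.exp_le_exp.mpr hρ1).trans (by linarith)
    have hexp1 : 1 ≤ Real.exp ρ := Real.one_le_exp hρ.le
    have hXe : 1 ≤ X * Real.exp ρ := by nlinarith
    set a : G → ℂ := fun z => if z ∈ V X then 0 else (F z : ℂ) * (mA P Q ρ X z : ℂ) with ha
    have hsub : V X ⊆ V (X * Real.exp ρ) := by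
      intro z hz
      rw [mem_V] at hz ⊢
      exact ⟨hz.1.trans (by nlinarith), hz.2⟩
    have e1 : ∀ k, A3 F P Q ρ X k = ∑ z ∈ V (X * Real.exp ρ), a z * xi (-k) z := by
      intro k
      rw [← Finset.sum_sdiff hsub, A3]
      have e2 : ∑ z ∈ V X, a z * xi (-k) z = 0 := by
        refine Finset.sum_eq_zero fun z hz => ?_
        rw [ha]
        simp [hz]
      rw [e2, add_zero]
      refine Finset.sum_congr rfl fun z hz => ?_
      have e3 : z ∉ V X := (Finset.mem_sdiff.mp hz).2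
      rw [ha]
      simp [e3]
    have e2 : ∑ z ∈ V (X * Real.exp ρ), ‖a z‖ ^ 2 ≤ C3 * ρ * X * (2 * L) ^ 2 := by
      rw [← Finset.sum_sdiff hsub]
      have e3 : ∑ z ∈ V X, ‖a z‖ ^ 2 = 0 := by
        refine Finset.sum_eq_zero fun z hz => ?_
        rw [ha]
        simp [hz]
      rw [e3, add_zero]
      calc ∑ z ∈ V (X * Real.exp ρ) \ V X, ‖a z‖ ^ 2
          ≤ ∑ z ∈ V (X * Real.exp ρ) \ V X, (om P Q z) ^ 2 := by
            refine Finset.sum_le_sum fun z hz => ?_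
            have e4 : z ∉ V X := (Finset.mem_sdiff.mp hz).2
            have e5 := (Finset.mem_sdiff.mp hz).1
            have e6 : ‖a z‖ = mA P Q ρ X z := by
              rw [ha]
              simp only [e4, if_false]
              rw [norm_mul, hF.norm (mem_V.mp e5).2.1, one_mul, Complex.norm_natCast]
            rw [e6]
            exact pow_le_pow_left₀ (Nat.cast_nonneg _) (mA_le P Q ρ X hρ z (V_ne_zero e5)) 2
        _ ≤ C3 * ρ * X * (L + 1) ^ 2 := hann P Q X ρ hP hPQ hQX hρ hρ1 hXρ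
        _ ≤ C3 * ρ * X * (2 * L) ^ 2 := by
            gcongr
            linarith
    simp only [e1]
    refine (hls (X * Real.exp ρ) T a hXe).trans ?_
    calc C1 * (T + X * Real.exp ρ) * ∑ z ∈ V (X * Real.exp ρ), ‖a z‖ ^ 2
        ≤ C1 * (X + X * 3) * (C3 * ρ * X * (2 * L) ^ 2) := by
          have e4 : 0 ≤ ∑ z ∈ V (X * Real.exp ρ), ‖a z‖ ^ 2 :=
            Finset.sum_nonneg fun _ _ => sq_nonneg _
          gcongr
      _ = 16 * C1 * C3 * X ^ 2 * L ^ 2 * ρ := by ring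
  -- second part
  have hA2 : ∑ k ∈ fr T, ‖A2 F P Q ρ X k‖ ^ 2 ≤ C4 * X ^ 2 * L :=
    hA2s F hF P Q ρ X T hP hρ hρ1 hX1 hTX
  calc ∑ k ∈ fr T, ‖(L : ℂ) * fc F X k - UZ F P Q ρ X k‖ ^ 2
      ≤ ∑ k ∈ fr T, 3 * (‖∑ z ∈ V X, ((F z : ℂ) * ((L - om P Q z : ℝ) : ℂ)) * xi (-k) z‖ ^ 2 +
          ‖A2 F P Q ρ X k‖ ^ 2 + ‖A3 F P Q ρ X k‖ ^ 2) := by
        refine Finset.sum_le_sum fun k _ => ?_
        rw [hdec]
        exact h3 _ _ _
    _ = 3 * (∑ k ∈ fr T, ‖∑ z ∈ V X, ((F z : ℂ) * ((L - om P Q z : ℝ) : ℂ)) * xi (-k) z‖ ^ 2 +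
          ∑ k ∈ fr T, ‖A2 F P Q ρ X k‖ ^ 2 + ∑ k ∈ fr T, ‖A3 F P Q ρ X k‖ ^ 2) := by
        rw [← Finset.mul_sum, Finset.sum_add_distrib, Finset.sum_add_distrib]
    _ ≤ 3 * (4 * C1 * C2 * X ^ 2 * L + C4 * X ^ 2 * L +
          16 * C1 * C3 * X ^ 2 * L ^ 2 * ρ) := by gcongr
    _ ≤ 3 * (4 * C1 * C2 + C4 + 16 * C1 * C3) * X ^ 2 * L ^ 2 * (1 / L + ρ) := by
        have e1 : X ^ 2 * L ^ 2 * (1 / L) = X ^ 2 * L := by field_simp
        have e4 : 3 * (4 * C1 * C2 + C4 + 16 * C1 * C3) * X ^ 2 * L ^ 2 *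
            (1 / L + ρ) = 3 * (4 * C1 * C2 + C4 + 16 * C1 * C3) *
              (X ^ 2 * L + X ^ 2 * L ^ 2 * ρ) := by
          rw [← e1]
          ring
        rw [e4]
        have p2 : 0 ≤ C1 * C2 * (X ^ 2 * L ^ 2 * ρ) := by positivity
        have p4 : 0 ≤ C4 * (X ^ 2 * L ^ 2 * ρ) := by positivity
        have p6 : 0 ≤ C1 * C3 * (X ^ 2 * L) := by positivity
        nlinarith

end Pool.Agent.GaussMR
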