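import Pool.Agent.Lib_MP_f1a94e_mr.Small1
import Pool.Agent.Lib_MP_f1a94e_mu.StageM
import Pool.Agent.Lib_MP_f1a94e_mu.SmallM

/-!
# Piece CHAIN: all stages together
-/

set_option autoImplicit false

namespace Pool.Agent.GaussMR

/-- total error of stages `0, …, J` -/
noncomputable def Err (C : ℝ) (J : ℕ) (P Q r a l : ℕ → ℝ) : ℝ :=
  ∑ j ∈ Finset.range (J + 1), (1 / Ls (P j) (Q j) + r j) +
    (Real.log (Q 0) / r 0 + 1) ^ 2 * P 0 ^ (-(2 * a 0)) +
    ∑ j ∈ Finset.range J, (Real.log (Q (j + 1)) / r (j + 1) + 1) ^ 2 * (Real.log (Q j) / r j + 1) *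
      Q j ^ 2 * Real.exp (C * (l j + 2) * Real.log (l j + 2)) *
      P (j + 1) ^ (-(2 * (a (j + 1) - a j)))

/-- admissible parameters of stages `0, …, J` -/
def Adm (X : ℝ) (J : ℕ) (P Q r a l : ℕ → ℝ) : Prop :=
  (∀ j ≤ J, Real.exp 2 ≤ P j ∧ P j ≤ Q j ∧ Q j ^ 20 ≤ X ∧ 0 < r j ∧ r j ≤ 1 ∧
    X ^ (-(1 / 4 : ℝ)) ≤ r j ∧ 1 ≤ Ls (P j) (Q j) ∧ 0 ≤ a j ∧ a j ≤ 1) ∧
  (∀ j < J, a j ≤ a (j + 1) ∧ 1 ≤ l j ∧ 2 * Real.log (Q (j + 1)) ≤ l j * Real.log (P j))

open Classical in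
/-- frequencies for which all prime polynomials of stage `j` are small -/
noncomputable def smallSet (F : G → ℝ) (T : ℕ) (P Q r a : ℝ) : Finset ℤ :=
  (fr T).filter (fun k => ∀ v : ℕ, ‖U F P Q r v k‖ ≤ Real.exp ((1 - a) * (v * r)))

/-- splitting of the coefficient: `Ls fc = (Ls fc - UZ) + UZ`, `Ls ≥ 1` -/
theorem chain_split (L : ℝ) (hL : 1 ≤ L) (f u : ℂ) :
    ‖f‖ ^ 2 ≤ 2 / L ^ 2 * ‖(L : ℂ) * f - u‖ ^ 2 + 2 * ‖u‖ ^ 2 := by
  have h1 : L * ‖f‖ ≤ ‖(L : ℂ) * f - u‖ + ‖u‖ := by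
    have h2 : (L : ℂ) * f = ((L : ℂ) * f - u) + u := by ring
    have h3 : ‖(L : ℂ) * f‖ = L * ‖f‖ := by
      rw [norm_mul, Complex.norm_real, Real.norm_eq_abs, abs_of_pos (by linarith)]
    rw [← h3]
    nth_rewrite 1 [h2]
    exact norm_add_le _ _
  have h4 : (L * ‖f‖) ^ 2 ≤ 2 * (‖(L : ℂ) * f - u‖ ^ 2 + ‖u‖ ^ 2) := by
    have h0 : 0 ≤ L * ‖f‖ := by positivity
    calc (L * ‖f‖) ^ 2 ≤ (‖(L : ℂ) * f - u‖ + ‖u‖) ^ 2 := by gcongr
      _ ≤ 2 * (‖(L : ℂ) * f - u‖ ^ 2 + ‖u‖ ^ 2) := add_sq_le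
  have hL2 : 0 < L ^ 2 := by positivity
  have hL1 : 1 ≤ L ^ 2 := one_le_pow₀ hL
  have h5 : ‖f‖ ^ 2 ≤ 2 * (‖(L : ℂ) * f - u‖ ^ 2 + ‖u‖ ^ 2) / L ^ 2 := by
    rw [le_div_iff₀ hL2]
    nlinarith
  have h6 : 2 * (‖(L : ℂ) * f - u‖ ^ 2 + ‖u‖ ^ 2) / L ^ 2 =
      2 / L ^ 2 * ‖(L : ℂ) * f - u‖ ^ 2 + 2 * ‖u‖ ^ 2 / L ^ 2 := by ring
  have h7 : 2 * ‖u‖ ^ 2 / L ^ 2 ≤ 2 * ‖u‖ ^ 2 := div_le_self (by positivity) hL1
  linarith

open Classical in
/-- For `k` in the small set of stage `J` let `j ≤ J` be least such that `k` is in the small set of stage `j`;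
so `k ∈ K_j`, where `K_j` is the small set of stage `j` minus (if `j ≥ 1`) the small set of stage `j - 1`. On
`K_j`: `‖fc k‖² ≤ 2 / Ls² (‖Ls fc k - UZ k‖² + ‖UZ k‖²)`, `Ls ≥ 1`; first part by `stageM`, second part
by `small1` (`j = 0`, `T ≤ X / Q 0`) and `smallM` (`j ≥ 1`). The constant is the maximum of the constants. -/
theorem chain : ∃ C : ℝ, 0 < C ∧ ∀ (F : G → ℝ), PM F → ∀ (X : ℝ) (T J : ℕ) (P Q r a l : ℕ → ℝ),
    Adm X J P Q r a l → (T : ℝ) ≤ X / Q 0 →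
    ∑ k ∈ smallSet F T (P J) (Q J) (r J) (a J), ‖fc F X k‖ ^ 2 ≤ C * X ^ 2 * Err C J P Q r a l := by
  obtain ⟨C1, hC1, hstage⟩ := stageM
  obtain ⟨C2, hC2, hsmall1⟩ := small1
  obtain ⟨C3, hC3, hsmallM⟩ := smallM
  set C : ℝ := 2 * C1 + 2 * C2 + C3 + 2 with hC
  refine ⟨C, by positivity, ?_⟩
  intro F hF X T J P Q r a l hadm hT
  obtain ⟨hA, hB⟩ := hadm
  -- general facts
  have hPge : ∀ j ≤ J, 2 ≤ P j := by
    intro j hj
    have h1 := (hA j hj).1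
    have h2 := Real.add_one_le_exp (2 : ℝ)
    linarith
  have hQge : ∀ j ≤ J, 1 ≤ Q j := by
    intro j hj
    have h1 := hPge j hj
    have h2 := (hA j hj).2.1
    linarith
  have hQX : ∀ j ≤ J, Q j ≤ X := by
    intro j hj
    have h1 := hQge j hj
    have h2 := (hA j hj).2.2.1
    calc Q j = Q j ^ 1 := (pow_one _).symm
      _ ≤ Q j ^ 20 := pow_le_pow_right₀ h1 (by norm_num)
      _ ≤ X := h2
  have hX1 : 1 ≤ X := (hQge 0 (Nat.zero_le _)).trans (hQX 0 (Nat.zero_le _))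
  have hTX : (T : ℝ) ≤ X := by
    have h1 := hQge 0 (Nat.zero_le _)
    exact hT.trans (div_le_self (by linarith) h1)
  -- one stage
  have hone : ∀ j ≤ J, ∀ (S : Finset ℤ), S ⊆ fr T → ∀ (B : ℝ),
      ∑ k ∈ S, ‖UZ F (P j) (Q j) (r j) X k‖ ^ 2 ≤ B →
      ∑ k ∈ S, ‖fc F X k‖ ^ 2 ≤ 2 * C1 * X ^ 2 * (1 / Ls (P j) (Q j) + r j) + 2 * B := by
    intro j hj S hS B hB'
    obtain ⟨g1, g2, g3, g4, g5, g6, g7, g8, g9⟩ := hA j hj
    have h1 := hstage F hF (P j) (Q j) (r j) X T (hPge j hj) g2 g3 g4 g5 g6 hTX g7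
    set L : ℝ := Ls (P j) (Q j) with hL
    have hL0 : 0 < L := by linarith
    have h2 : ∑ k ∈ S, ‖(L : ℂ) * fc F X k - UZ F (P j) (Q j) (r j) X k‖ ^ 2 ≤
        C1 * X ^ 2 * L ^ 2 * (1 / L + r j) :=
      (Finset.sum_le_sum_of_subset_of_nonneg hS (fun _ _ _ => by positivity)).trans h1
    calc ∑ k ∈ S, ‖fc F X k‖ ^ 2
        ≤ ∑ k ∈ S, (2 / L ^ 2 * ‖(L : ℂ) * fc F X k - UZ F (P j) (Q j) (r j) X k‖ ^ 2 +
            2 * ‖UZ F (P j) (Q j) (r j) X k‖ ^ 2) :=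
          Finset.sum_le_sum fun k _ => chain_split L g7 _ _
      _ = 2 / L ^ 2 * ∑ k ∈ S, ‖(L : ℂ) * fc F X k - UZ F (P j) (Q j) (r j) X k‖ ^ 2 +
            2 * ∑ k ∈ S, ‖UZ F (P j) (Q j) (r j) X k‖ ^ 2 := by
          rw [Finset.sum_add_distrib, ← Finset.mul_sum, ← Finset.mul_sum]
      _ ≤ 2 / L ^ 2 * (C1 * X ^ 2 * L ^ 2 * (1 / L + r j)) + 2 * B := by gcongr
      _ = 2 * C1 * X ^ 2 * (1 / L + r j) + 2 * B := by
          congr 1
          field_simp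
  have hsub : ∀ j, smallSet F T (P j) (Q j) (r j) (a j) ⊆ fr T := fun j => Finset.filter_subset _ _
  have main : ∀ J' ≤ J, ∑ k ∈ smallSet F T (P J') (Q J') (r J') (a J'), ‖fc F X k‖ ^ 2 ≤
      C * X ^ 2 * Err C J' P Q r a l := by
    intro J'
    induction J' with
    | zero =>
      intro h0
      obtain ⟨g1, g2, g3, g4, g5, g6, g7, g8, g9⟩ := hA 0 h0
      have h1 := hsmall1 F hF (P 0) (Q 0) (r 0) X (a 0) T _ (hPge 0 h0) g2 (hQX 0 h0) g4 g5 g8 g9 hT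
        (hsub 0) (fun k hk v => (Finset.mem_filter.mp hk).2 v)
      have h2 := hone 0 h0 _ (hsub 0) _ h1
      refine h2.trans ?_
      unfold Err
      simp only [zero_add, Finset.range_one, Finset.sum_singleton, Finset.range_zero,
        Finset.sum_empty, add_zero]
      have e1 : 0 ≤ 1 / Ls (P 0) (Q 0) + r 0 := by
        have : 0 ≤ 1 / Ls (P 0) (Q 0) := by
          apply div_nonneg zero_le_one
          linarith
        linarith
      have e2 : 0 ≤ (Real.log (Q 0) / r 0 + 1) ^ 2 * P 0 ^ (-(2 * a 0)) := by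
        have := hPge 0 h0
        positivity
      have e3 : 2 * C1 * X ^ 2 * (1 / Ls (P 0) (Q 0) + r 0) ≤
          C * X ^ 2 * (1 / Ls (P 0) (Q 0) + r 0) := by
        have : 2 * C1 ≤ C := by rw [hC]; linarith
        gcongr
      have e4 : 2 * (C2 * X ^ 2 * (Real.log (Q 0) / r 0 + 1) ^ 2 * P 0 ^ (-(2 * a 0))) ≤
          C * X ^ 2 * ((Real.log (Q 0) / r 0 + 1) ^ 2 * P 0 ^ (-(2 * a 0))) := by
        have h3 : 2 * C2 ≤ C := by rw [hC]; linarith
        calc 2 * (C2 * X ^ 2 * (Real.log (Q 0) / r 0 + 1) ^ 2 * P 0 ^ (-(2 * a 0)))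
            = (2 * C2) * X ^ 2 * ((Real.log (Q 0) / r 0 + 1) ^ 2 * P 0 ^ (-(2 * a 0))) := by ring
          _ ≤ C * X ^ 2 * ((Real.log (Q 0) / r 0 + 1) ^ 2 * P 0 ^ (-(2 * a 0))) := by gcongr
      linarith
    | succ J' ih =>
      intro hJ
      have hJ' : J' ≤ J := by omega
      have ihJ := ih hJ'
      obtain ⟨g1, g2, g3, g4, g5, g6, g7, g8, g9⟩ := hA (J' + 1) hJ
      obtain ⟨f1, f2, f3, f4, f5, f6, f7, f8, f9⟩ := hA J' hJ'
      obtain ⟨b1, b2, b3⟩ := hB J' (by omega)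
      set S1 : Finset ℤ := smallSet F T (P (J' + 1)) (Q (J' + 1)) (r (J' + 1)) (a (J' + 1)) with hS1
      set S0 : Finset ℤ := smallSet F T (P J') (Q J') (r J') (a J') with hS0
      set B : ℝ := X ^ 2 * (Real.log (Q (J' + 1)) / r (J' + 1) + 1) ^ 2 * (Real.log (Q J') / r J' + 1) *
        Q J' ^ 2 * Real.exp (C3 * (l J' + 2) * Real.log (l J' + 2)) *
        P (J' + 1) ^ (-(2 * (a (J' + 1) - a J'))) with hBdef
      have h1 : ∑ k ∈ S1 \ S0, ‖UZ F (P (J' + 1)) (Q (J' + 1)) (r (J' + 1)) X k‖ ^ 2 ≤ B := by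
        refine hsmallM F hF (P J') (Q J') (P (J' + 1)) (Q (J' + 1)) (r J') (r (J' + 1)) X (a J')
          (a (J' + 1)) (l J') T (S1 \ S0) f1 f2 (hQX J' hJ') (by have := hPge (J' + 1) hJ; linarith)
          g2 (hQX _ hJ) b2 b3 f4 f5 g4 g5 f8 b1 g9 hTX
          (Finset.sdiff_subset.trans (hsub _)) ?_ ?_
        · intro k hk
          rw [Finset.mem_sdiff] at hk
          by_contra hc
          push Not at hc
          apply hk.2
          rw [hS0]
          exact Finset.mem_filter.mpr ⟨hsub _ hk.1, hc⟩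
        · intro k hk v
          rw [Finset.mem_sdiff] at hk
          exact (Finset.mem_filter.mp hk.1).2 v
      have h2 := hone (J' + 1) hJ (S1 \ S0) (Finset.sdiff_subset.trans (hsub _)) B h1
      have h3 : ∑ k ∈ S1, ‖fc F X k‖ ^ 2 ≤
          ∑ k ∈ S1 \ S0, ‖fc F X k‖ ^ 2 + ∑ k ∈ S0, ‖fc F X k‖ ^ 2 := by
        have h4 : S1 ⊆ (S1 \ S0) ∪ S0 := by
          intro k hk
          rw [Finset.mem_union, Finset.mem_sdiff]
          by_cases h : k ∈ S0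
          · exact Or.inr h
          · exact Or.inl ⟨hk, h⟩
        rw [← Finset.sum_union Finset.sdiff_disjoint]
        exact Finset.sum_le_sum_of_subset_of_nonneg h4 (fun _ _ _ => by positivity)
      have h5 : Err C (J' + 1) P Q r a l = Err C J' P Q r a l +
          (1 / Ls (P (J' + 1)) (Q (J' + 1)) + r (J' + 1)) +
          (Real.log (Q (J' + 1)) / r (J' + 1) + 1) ^ 2 * (Real.log (Q J') / r J' + 1) *
          Q J' ^ 2 * Real.exp (C * (l J' + 2) * Real.log (l J' + 2)) *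
          P (J' + 1) ^ (-(2 * (a (J' + 1) - a J'))) := by
        have hh : ∀ (f g : ℕ → ℝ) (A : ℝ),
            (∑ j ∈ Finset.range (J' + 1 + 1), f j) + A + ∑ j ∈ Finset.range (J' + 1), g j =
            ((∑ j ∈ Finset.range (J' + 1), f j) + A + ∑ j ∈ Finset.range J', g j) + f (J' + 1) +
              g J' := by
          intro f g A
          rw [Finset.sum_range_succ f (J' + 1), Finset.sum_range_succ g J']
          ring
        exact hh _ _ _
      have e1 : 2 * C1 * X ^ 2 * (1 / Ls (P (J' + 1)) (Q (J' + 1)) + r (J' + 1)) ≤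
          C * X ^ 2 * (1 / Ls (P (J' + 1)) (Q (J' + 1)) + r (J' + 1)) := by
        have h6 : 0 ≤ 1 / Ls (P (J' + 1)) (Q (J' + 1)) + r (J' + 1) := by
          have : 0 ≤ 1 / Ls (P (J' + 1)) (Q (J' + 1)) := by
            apply div_nonneg zero_le_one
            linarith
          linarith
        have : 2 * C1 ≤ C := by rw [hC]; linarith
        gcongr
      have e2 : 2 * B ≤ C * X ^ 2 * ((Real.log (Q (J' + 1)) / r (J' + 1) + 1) ^ 2 *
          (Real.log (Q J') / r J' + 1) *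
          Q J' ^ 2 * Real.exp (C * (l J' + 2) * Real.log (l J' + 2)) *
          P (J' + 1) ^ (-(2 * (a (J' + 1) - a J')))) := by
        have hlog : 0 ≤ Real.log (l J' + 2) := Real.log_nonneg (by linarith)
        have hC3C : C3 ≤ C := by rw [hC]; linarith
        have h2C : (2 : ℝ) ≤ C := by rw [hC]; linarith
        have hexp : Real.exp (C3 * (l J' + 2) * Real.log (l J' + 2)) ≤
            Real.exp (C * (l J' + 2) * Real.log (l J' + 2)) := by
          rw [Real.exp_le_exp]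
          have : 0 ≤ l J' + 2 := by linarith
          gcongr
        have hlQ : 0 ≤ Real.log (Q J') / r J' + 1 := by
          have : 0 ≤ Real.log (Q J') := Real.log_nonneg (hQge _ hJ')
          positivity
        have hPp : 0 < P (J' + 1) := by have := hPge _ hJ; linarith
        rw [hBdef]
        calc 2 * (X ^ 2 * (Real.log (Q (J' + 1)) / r (J' + 1) + 1) ^ 2 * (Real.log (Q J') / r J' + 1) *
              Q J' ^ 2 * Real.exp (C3 * (l J' + 2) * Real.log (l J' + 2)) *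
              P (J' + 1) ^ (-(2 * (a (J' + 1) - a J'))))
            = 2 * X ^ 2 * ((Real.log (Q (J' + 1)) / r (J' + 1) + 1) ^ 2 *
              (Real.log (Q J') / r J' + 1) *
              Q J' ^ 2 * Real.exp (C3 * (l J' + 2) * Real.log (l J' + 2)) *
              P (J' + 1) ^ (-(2 * (a (J' + 1) - a J')))) := by ring
          _ ≤ C * X ^ 2 * ((Real.log (Q (J' + 1)) / r (J' + 1) + 1) ^ 2 *
              (Real.log (Q J') / r J' + 1) *
              Q J' ^ 2 * Real.exp (C * (l J' + 2) * Real.log (l J' + 2)) *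
              P (J' + 1) ^ (-(2 * (a (J' + 1) - a J')))) := by gcongr
      rw [h5]
      have e3 : C * X ^ 2 * (Err C J' P Q r a l +
          (1 / Ls (P (J' + 1)) (Q (J' + 1)) + r (J' + 1)) +
          (Real.log (Q (J' + 1)) / r (J' + 1) + 1) ^ 2 * (Real.log (Q J') / r J' + 1) *
          Q J' ^ 2 * Real.exp (C * (l J' + 2) * Real.log (l J' + 2)) *
          P (J' + 1) ^ (-(2 * (a (J' + 1) - a J')))) =
          C * X ^ 2 * Err C J' P Q r a l +
          C * X ^ 2 * (1 / Ls (P (J' + 1)) (Q (J' + 1)) + r (J' + 1)) +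
          C * X ^ 2 * ((Real.log (Q (J' + 1)) / r (J' + 1) + 1) ^ 2 * (Real.log (Q J') / r J' + 1) *
          Q J' ^ 2 * Real.exp (C * (l J' + 2) * Real.log (l J' + 2)) *
          P (J' + 1) ^ (-(2 * (a (J' + 1) - a J')))) := by ring
      rw [e3]
      linarith
  exact main J le_rfl

end Pool.Agent.GaussMR
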