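import Mathlib

/-!
# Piece PARAMSA: elementary estimates for the parameters of the stages
-/

set_option autoImplicit false

namespace Pool.Agent.GaussMR

theorem pa_log_le (x : ℝ) (hx : 1 ≤ x) : Real.log x ≤ x := by
  have := Real.log_le_sub_one_of_pos (show 0 < x by linarith)
  linarith

theorem pa_le_exp (x : ℝ) : x ≤ Real.exp x := by
  have := Real.add_one_le_exp x
  linarith

theorem pa_pow_le_exp (s : ℝ) (hs : 1 ≤ s) (n : ℕ) : s ^ n ≤ Real.exp (n * s) := by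
  rw [mul_comm, Real.exp_mul, Real.rpow_natCast]
  have := pa_le_exp s
  gcongr

/-- stage `j → j + 1`, `m = b ^ (2 ^ j)`: the exponent is at most
`C' m^(13/2) - (α / 2^(j+1)) m^8 ≤ C' m^(13/2) - (α / 2) m^7 ≤ - m` for large `m`. -/
theorem param_step (C α : ℝ) (hC : 0 ≤ C) (hα : 0 < α) : ∃ b0 : ℝ, 1 ≤ b0 ∧ ∀ (m : ℝ) (j : ℕ),
    b0 ≤ m → (2 : ℝ) ^ j ≤ m →
    (m ^ 12 + 1) ^ 2 * (m ^ 6 + 1) * Real.exp (2 * m ^ 5) *
      Real.exp (C * (2 * m ^ 6 + 2) * Real.log (2 * m ^ 6 + 2)) *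
      Real.exp (-(α / 2 ^ (j + 1) * m ^ 8)) ≤ Real.exp (-m) := by
  set s0 : ℝ := max 1 (2 / α * (70 + 56 * C)) with hs0
  have hs01 : 1 ≤ s0 := le_max_left _ _
  refine ⟨s0 ^ 2, one_le_pow₀ hs01, ?_⟩
  intro m j hm hj
  set s : ℝ := Real.sqrt m with hs
  have hss : s0 ≤ s := Real.le_sqrt_of_sq_le hm
  have hs1 : 1 ≤ s := hs01.trans hss
  have hm1 : 1 ≤ m := le_trans (one_le_pow₀ hs01) hm
  have hms : m = s ^ 2 := (Real.sq_sqrt (by linarith)).symm
  have hm0 : 0 < m := by linarith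
  -- logarithm
  have h1 : Real.log (2 * m ^ 6 + 2) ≤ 14 * s := by
    have e1 : 2 * m ^ 6 + 2 ≤ 4 * s ^ 12 := by
      have : m ^ 6 = s ^ 12 := by rw [hms]; ring
      rw [this]
      have : 1 ≤ s ^ 12 := one_le_pow₀ hs1
      linarith
    have e2 : Real.log (2 * m ^ 6 + 2) ≤ Real.log (4 * s ^ 12) :=
      Real.log_le_log (by positivity) e1
    have e3 : Real.log (4 * s ^ 12) = Real.log 4 + 12 * Real.log s := by
      rw [Real.log_mul (by norm_num) (by positivity), Real.log_pow]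
      norm_num
    have e4 : Real.log 4 ≤ 2 := by
      have : (4 : ℝ) = 2 ^ 2 := by norm_num
      rw [this, Real.log_pow]
      have := Real.log_two_lt_d9
      push_cast
      linarith
    have e5 := pa_log_le s hs1
    linarith
  have h2 : C * (2 * m ^ 6 + 2) * Real.log (2 * m ^ 6 + 2) ≤ 56 * C * s ^ 13 := by
    have e0 : 0 ≤ Real.log (2 * m ^ 6 + 2) := by
      apply Real.log_nonneg
      have : 0 ≤ m ^ 6 := by positivity
      linarith
    have e1 : 2 * m ^ 6 + 2 ≤ 4 * s ^ 12 := by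
      have : m ^ 6 = s ^ 12 := by rw [hms]; ring
      rw [this]
      have : 1 ≤ s ^ 12 := one_le_pow₀ hs1
      linarith
    calc C * (2 * m ^ 6 + 2) * Real.log (2 * m ^ 6 + 2) ≤ C * (4 * s ^ 12) * (14 * s) := by gcongr
      _ = 56 * C * s ^ 13 := by ring
  have h3 : (m ^ 12 + 1) ^ 2 * (m ^ 6 + 1) ≤ Real.exp (3 + 60 * s) := by
    have e1 : m ^ 12 + 1 ≤ 2 * s ^ 24 := by
      have : m ^ 12 = s ^ 24 := by rw [hms]; ring
      rw [this]
      have : 1 ≤ s ^ 24 := one_le_pow₀ hs1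
      linarith
    have e2 : m ^ 6 + 1 ≤ 2 * s ^ 12 := by
      have : m ^ 6 = s ^ 12 := by rw [hms]; ring
      rw [this]
      have : 1 ≤ s ^ 12 := one_le_pow₀ hs1
      linarith
    have e3 : (8 : ℝ) ≤ Real.exp 3 := by
      have : (8 : ℝ) = 2 ^ 3 := by norm_num
      have h2 : (2 : ℝ) ≤ Real.exp 1 := by
        have := Real.add_one_le_exp (1 : ℝ)
        linarith
      rw [this, show (3 : ℝ) = ((3 : ℕ) : ℝ) * 1 by norm_num, Real.exp_nat_mul]
      gcongr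
    have e4 := pa_pow_le_exp s hs1 60
    calc (m ^ 12 + 1) ^ 2 * (m ^ 6 + 1) ≤ (2 * s ^ 24) ^ 2 * (2 * s ^ 12) := by gcongr
      _ = 8 * s ^ 60 := by ring
      _ ≤ Real.exp 3 * Real.exp ((60 : ℕ) * s) := by gcongr
      _ = Real.exp (3 + 60 * s) := by rw [← Real.exp_add]; norm_num
  have h4 : α / 2 * s ^ 14 ≤ α / 2 ^ (j + 1) * m ^ 8 := by
    have e1 : (2 : ℝ) ^ (j + 1) ≤ 2 * s ^ 2 := by rw [pow_succ, ← hms]; linarith
    have e2 : m ^ 8 = s ^ 2 * s ^ 14 := by rw [hms]; ring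
    rw [e2]
    have e3 : α / (2 * s ^ 2) ≤ α / 2 ^ (j + 1) := by gcongr
    calc α / 2 * s ^ 14 = α / (2 * s ^ 2) * (s ^ 2 * s ^ 14) := by field_simp
      _ ≤ α / 2 ^ (j + 1) * (s ^ 2 * s ^ 14) := by gcongr
  have h5 : (2 * m ^ 5) = 2 * s ^ 10 := by rw [hms]; ring
  have h6 : 3 + 60 * s + 2 * s ^ 10 + 56 * C * s ^ 13 + s ^ 2 ≤ α / 2 * s ^ 14 := by
    have e0 : 2 / α * (70 + 56 * C) ≤ s := (le_max_right _ _).trans hss
    have e1 : 70 + 56 * C ≤ α / 2 * s := by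
      have : 70 + 56 * C = α / 2 * (2 / α * (70 + 56 * C)) := by field_simp
      rw [this]
      gcongr
    have e2 : (70 + 56 * C) * s ^ 13 ≤ α / 2 * s ^ 14 := by
      calc (70 + 56 * C) * s ^ 13 ≤ (α / 2 * s) * s ^ 13 := by gcongr
        _ = α / 2 * s ^ 14 := by ring
    have e3 : (1 : ℝ) ≤ s ^ 13 := one_le_pow₀ hs1
    have e4 : s ≤ s ^ 13 := by
      calc s = s ^ 1 := (pow_one s).symm
        _ ≤ s ^ 13 := pow_le_pow_right₀ hs1 (by norm_num)
    have e5 : s ^ 10 ≤ s ^ 13 := pow_le_pow_right₀ hs1 (by norm_num)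
    have e6 : s ^ 2 ≤ s ^ 13 := pow_le_pow_right₀ hs1 (by norm_num)
    linarith
  calc (m ^ 12 + 1) ^ 2 * (m ^ 6 + 1) * Real.exp (2 * m ^ 5) *
      Real.exp (C * (2 * m ^ 6 + 2) * Real.log (2 * m ^ 6 + 2)) *
      Real.exp (-(α / 2 ^ (j + 1) * m ^ 8))
      ≤ Real.exp (3 + 60 * s) * Real.exp (2 * s ^ 10) * Real.exp (56 * C * s ^ 13) *
        Real.exp (-(α / 2 * s ^ 14)) := by
        rw [h5]
        gcongr
    _ = Real.exp ((3 + 60 * s + 2 * s ^ 10 + 56 * C * s ^ 13) - α / 2 * s ^ 14) := by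
        rw [← Real.exp_add, ← Real.exp_add, ← Real.exp_add]
        ring_nf
    _ ≤ Real.exp (-m) := by
        rw [Real.exp_le_exp, hms]
        linarith

/-- last stage: `m^8 ≤ λ < m^16`, `2^j ≤ m`; the exponent is at most `C' λ^(7/9) - (α / 2) λ^(7/8)`
(`2 m^5 ≤ 2 λ^(5/8)`, `l = 2 M λ / m^4 ≤ 2 M λ^(3/4)`, `α / 2^j ≥ α / m ≥ α λ^(-1/8)`) -/
theorem param_last (C α M ρ : ℝ) (hC : 0 ≤ C) (hα : 0 < α) (hM : 1 ≤ M) (hρ : 0 < ρ) :
    ∃ L0 : ℝ, 1 ≤ L0 ∧ ∀ (lam m : ℝ) (j : ℕ), L0 ≤ lam → 1 ≤ m → m ^ 8 ≤ lam → lam < m ^ 16 →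
    (2 : ℝ) ^ j ≤ m →
    (M * lam / ρ + 1) ^ 2 * (m ^ 6 + 1) * Real.exp (2 * m ^ 5) *
      Real.exp (C * (2 * M * lam / m ^ 4 + 2) * Real.log (2 * M * lam / m ^ 4 + 2)) *
      Real.exp (-(α / 2 ^ j * lam)) ≤ Real.exp (-m) := by
  set K : ℝ := C * (4 * M) * (4 * M + 12) with hK
  have hK0 : 0 ≤ K := by positivity
  set u0 : ℝ := max 1 ((2 * (M / ρ + 1) + 50 + K) / α) with hu0
  have hu01 : 1 ≤ u0 := le_max_left _ _
  refine ⟨u0 ^ 16, one_le_pow₀ hu01, ?_⟩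
  intro lam m j hlam hm1 hm8 hm16 hj
  have hlam0 : 0 ≤ lam := le_trans (by positivity) hlam
  set u : ℝ := lam ^ (1 / 16 : ℝ) with hu
  have hu16 : u ^ 16 = lam := by
    rw [hu, ← Real.rpow_natCast, ← Real.rpow_mul hlam0]
    norm_num
  have hu0' : 0 ≤ u := Real.rpow_nonneg hlam0 _
  have huu : u0 ≤ u := by
    rw [← hu16] at hlam
    exact le_of_pow_le_pow_left₀ (by norm_num) hu0' hlam
  have hu1 : 1 ≤ u := hu01.trans huu
  have hmu : m ≤ u ^ 2 := by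
    have h : m ^ 8 ≤ (u ^ 2) ^ 8 := by rw [← pow_mul]; norm_num; rw [hu16]; exact hm8
    exact le_of_pow_le_pow_left₀ (by norm_num) (by positivity) h
  have hum : u ≤ m := by
    have h : u ^ 16 ≤ m ^ 16 := by rw [hu16]; exact hm16.le
    exact le_of_pow_le_pow_left₀ (by norm_num) (by linarith) h
  have hm0 : 0 < m := by linarith
  -- the factor `l`
  have hl : 2 * M * lam / m ^ 4 + 2 ≤ 4 * M * u ^ 12 := by
    have e1 : 2 * M * lam / m ^ 4 ≤ 2 * M * lam / u ^ 4 := by gcongr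
    have e2 : 2 * M * lam / u ^ 4 = 2 * M * u ^ 12 := by
      rw [← hu16]
      field_simp
    have e3 : 1 ≤ u ^ 12 := one_le_pow₀ hu1
    have e4 : 1 ≤ M * u ^ 12 := by nlinarith
    linarith
  have hl2 : 2 ≤ 2 * M * lam / m ^ 4 + 2 := by
    have : 0 ≤ 2 * M * lam / m ^ 4 := by positivity
    linarith
  have hlog : Real.log (2 * M * lam / m ^ 4 + 2) ≤ (4 * M + 12) * u := by
    have e1 : Real.log (2 * M * lam / m ^ 4 + 2) ≤ Real.log (4 * M * u ^ 12) :=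
      Real.log_le_log (by linarith) hl
    have e2 : Real.log (4 * M * u ^ 12) = Real.log (4 * M) + 12 * Real.log u := by
      rw [Real.log_mul (by positivity) (by positivity), Real.log_pow]
      norm_num
    have e3 := pa_log_le (4 * M) (by linarith)
    have e4 := pa_log_le u hu1
    nlinarith
  have h2 : C * (2 * M * lam / m ^ 4 + 2) * Real.log (2 * M * lam / m ^ 4 + 2) ≤ K * u ^ 13 := by
    have e0 : 0 ≤ Real.log (2 * M * lam / m ^ 4 + 2) := Real.log_nonneg (by linarith)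
    calc C * (2 * M * lam / m ^ 4 + 2) * Real.log (2 * M * lam / m ^ 4 + 2)
        ≤ C * (4 * M * u ^ 12) * ((4 * M + 12) * u) := by gcongr
      _ = K * u ^ 13 := by rw [hK]; ring
  have h3 : (M * lam / ρ + 1) ^ 2 ≤ Real.exp ((2 * (M / ρ + 1) + 32) * u) := by
    have e1 : M * lam / ρ + 1 ≤ (M / ρ + 1) * u ^ 16 := by
      rw [← hu16]
      have : 1 ≤ u ^ 16 := one_le_pow₀ hu1
      have h' : M * u ^ 16 / ρ = M / ρ * u ^ 16 := by ring
      rw [h']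
      linarith
    have e2 : M / ρ + 1 ≤ Real.exp ((M / ρ + 1) * u) := by
      have h1 := pa_le_exp (M / ρ + 1)
      have h2 : M / ρ + 1 ≤ (M / ρ + 1) * u := by
        have : 0 ≤ M / ρ + 1 := by positivity
        nlinarith
      exact h1.trans (Real.exp_le_exp.mpr h2)
    have e3 := pa_pow_le_exp u hu1 16
    calc (M * lam / ρ + 1) ^ 2 ≤ ((M / ρ + 1) * u ^ 16) ^ 2 := by gcongr
      _ ≤ (Real.exp ((M / ρ + 1) * u) * Real.exp ((16 : ℕ) * u)) ^ 2 := by gcongr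
      _ = Real.exp ((2 * (M / ρ + 1) + 32) * u) := by
        rw [← Real.exp_add, ← Real.exp_nat_mul]
        congr 1
        push_cast
        ring
  have h4 : m ^ 6 + 1 ≤ Real.exp (13 * u) := by
    have e1 : m ^ 6 ≤ u ^ 12 := by
      calc m ^ 6 ≤ (u ^ 2) ^ 6 := by gcongr
        _ = u ^ 12 := by ring
    have e2 : 1 ≤ u ^ 12 := one_le_pow₀ hu1
    have e3 := pa_pow_le_exp u hu1 12
    have e4 : (2 : ℝ) ≤ Real.exp u := by
      have := Real.add_one_le_exp u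
      linarith
    calc m ^ 6 + 1 ≤ 2 * u ^ 12 := by linarith
      _ ≤ Real.exp u * Real.exp ((12 : ℕ) * u) := by gcongr
      _ = Real.exp (13 * u) := by
        rw [← Real.exp_add]
        congr 1
        push_cast
        ring
  have h5 : 2 * m ^ 5 ≤ 2 * u ^ 10 := by
    calc 2 * m ^ 5 ≤ 2 * (u ^ 2) ^ 5 := by gcongr
      _ = 2 * u ^ 10 := by ring
  have h6 : α * u ^ 14 ≤ α / 2 ^ j * lam := by
    have e1 : (2 : ℝ) ^ j ≤ u ^ 2 := hj.trans hmu
    have e2 : α / u ^ 2 ≤ α / 2 ^ j := by gcongr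
    calc α * u ^ 14 = α / u ^ 2 * u ^ 16 := by field_simp
      _ ≤ α / 2 ^ j * u ^ 16 := by gcongr
      _ = α / 2 ^ j * lam := by rw [hu16]
  have h7 : (2 * (M / ρ + 1) + 32) * u + 13 * u + 2 * u ^ 10 + K * u ^ 13 + m ≤ α * u ^ 14 := by
    have e0 : (2 * (M / ρ + 1) + 50 + K) / α ≤ u := (le_max_right _ _).trans huu
    have e1 : 2 * (M / ρ + 1) + 50 + K ≤ α * u := by
      rw [div_le_iff₀ hα] at e0
      linarith
    have e2 : (2 * (M / ρ + 1) + 50 + K) * u ^ 13 ≤ α * u ^ 14 := by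
      calc (2 * (M / ρ + 1) + 50 + K) * u ^ 13 ≤ (α * u) * u ^ 13 := by gcongr
        _ = α * u ^ 14 := by ring
    have e4 : u ≤ u ^ 13 := by
      calc u = u ^ 1 := (pow_one u).symm
        _ ≤ u ^ 13 := pow_le_pow_right₀ hu1 (by norm_num)
    have e5 : u ^ 10 ≤ u ^ 13 := pow_le_pow_right₀ hu1 (by norm_num)
    have e6 : u ^ 2 ≤ u ^ 13 := pow_le_pow_right₀ hu1 (by norm_num)
    have e7 : 0 ≤ M / ρ + 1 := by positivity
    have e8 : (M / ρ + 1) * u ≤ (M / ρ + 1) * u ^ 13 := by gcongr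
    nlinarith
  calc (M * lam / ρ + 1) ^ 2 * (m ^ 6 + 1) * Real.exp (2 * m ^ 5) *
      Real.exp (C * (2 * M * lam / m ^ 4 + 2) * Real.log (2 * M * lam / m ^ 4 + 2)) *
      Real.exp (-(α / 2 ^ j * lam))
      ≤ Real.exp ((2 * (M / ρ + 1) + 32) * u) * Real.exp (13 * u) * Real.exp (2 * u ^ 10) *
        Real.exp (K * u ^ 13) * Real.exp (-(α * u ^ 14)) := by gcongr
    _ = Real.exp (((2 * (M / ρ + 1) + 32) * u + 13 * u + 2 * u ^ 10 + K * u ^ 13) - α * u ^ 14) := by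
        rw [← Real.exp_add, ← Real.exp_add, ← Real.exp_add, ← Real.exp_add]
        ring_nf
    _ ≤ Real.exp (-m) := by
        rw [Real.exp_le_exp]
        linarith

/-- stage `0` -/
theorem param_first (α ε : ℝ) (hα : 0 < α) (hε : 0 < ε) : ∃ b0 : ℝ, 1 ≤ b0 ∧ ∀ b : ℝ, b0 ≤ b →
    (b ^ 5 * b + 1) ^ 2 * Real.exp (-(α * b ^ 4)) ≤ ε := by
  refine ⟨max 1 ((14 + |Real.log ε|) / α), le_max_left _ _, ?_⟩
  intro b hb
  have hb1 : 1 ≤ b := (le_max_left _ _).trans hb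
  have hb2 : (14 + |Real.log ε|) / α ≤ b := (le_max_right _ _).trans hb
  have hb3 : 14 + |Real.log ε| ≤ α * b := by
    rw [div_le_iff₀ hα] at hb2
    linarith
  have h1 : (b ^ 5 * b + 1) ^ 2 ≤ Real.exp (14 * b) := by
    have e1 : b ^ 5 * b + 1 ≤ 2 * b ^ 6 := by
      have : 1 ≤ b ^ 6 := one_le_pow₀ hb1
      nlinarith
    have e2 : (2 : ℝ) ≤ Real.exp b := by
      have := Real.add_one_le_exp b
      linarith
    have e3 := pa_pow_le_exp b hb1 6
    calc (b ^ 5 * b + 1) ^ 2 ≤ (2 * b ^ 6) ^ 2 := by gcongr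
      _ ≤ (Real.exp b * Real.exp ((6 : ℕ) * b)) ^ 2 := by gcongr
      _ = Real.exp (14 * b) := by
        rw [← Real.exp_add, ← Real.exp_nat_mul]
        congr 1
        push_cast
        ring
  have h2 : 14 * b + |Real.log ε| ≤ α * b ^ 4 := by
    have e1 : b ≤ b ^ 3 := by
      calc b = b ^ 1 := (pow_one b).symm
        _ ≤ b ^ 3 := pow_le_pow_right₀ hb1 (by norm_num)
    have e2 : (14 + |Real.log ε|) * b ≤ α * b ^ 4 := by
      calc (14 + |Real.log ε|) * b ≤ (α * b) * b := by gcongr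
        _ ≤ (α * b ^ 3) * b := by gcongr
        _ = α * b ^ 4 := by ring
    have e3 : |Real.log ε| ≤ |Real.log ε| * b := by
      have := abs_nonneg (Real.log ε)
      nlinarith
    nlinarith
  calc (b ^ 5 * b + 1) ^ 2 * Real.exp (-(α * b ^ 4))
      ≤ Real.exp (14 * b) * Real.exp (-(α * b ^ 4)) := by gcongr
    _ = Real.exp (14 * b - α * b ^ 4) := by rw [← Real.exp_add]; ring_nf
    _ ≤ Real.exp (Real.log ε) := by
        rw [Real.exp_le_exp]
        have := neg_abs_le (Real.log ε)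
        linarith
    _ = ε := Real.exp_log hε

/-- `2 ^ j ≤ b ^ (2 ^ j)`, and the sums over `j` (`b ^ (2 ^ j) ≥ b * (j + 1)`) -/
theorem param_sums (ε : ℝ) (hε : 0 < ε) : ∃ b0 : ℝ, 2 ≤ b0 ∧ ∀ b : ℝ, b0 ≤ b →
    (∀ j : ℕ, (2 : ℝ) ^ j ≤ b ^ (2 ^ j)) ∧
    (∀ J : ℕ, ∑ j ∈ Finset.range J, 1 / b ^ (2 ^ j) ≤ ε) ∧
    (∀ J : ℕ, ∑ j ∈ Finset.range J, Real.exp (-(b ^ (2 ^ j))) ≤ ε) ∧
    (∀ J : ℕ, ∑ j ∈ Finset.range J, 4 / Real.log (b ^ (2 ^ j)) ≤ ε) := by
  refine ⟨max 2 (max (1 + 1 / ε) (Real.exp (8 / ε))), le_max_left _ _, ?_⟩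
  intro b hb
  have hb2 : 2 ≤ b := (le_max_left _ _).trans hb
  have hb3 : 1 + 1 / ε ≤ b := (le_max_left _ _).trans ((le_max_right _ _).trans hb)
  have hb4 : Real.exp (8 / ε) ≤ b := (le_max_right _ _).trans ((le_max_right _ _).trans hb)
  have hb0 : 0 < b := by linarith
  have hb1 : 1 ≤ b := by linarith
  have key : ∀ J : ℕ, ∑ j ∈ Finset.range J, 1 / b ^ (2 ^ j) ≤ ε := by
    intro J
    have e1 : ∀ j ∈ Finset.range J, 1 / b ^ (2 ^ j) ≤ (1 / b) * (1 / b) ^ j := by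
      intro j _
      have h : j + 1 ≤ 2 ^ j := Nat.lt_two_pow_self
      have h' : b ^ (j + 1) ≤ b ^ (2 ^ j) := pow_le_pow_right₀ hb1 h
      calc 1 / b ^ (2 ^ j) ≤ 1 / b ^ (j + 1) := by gcongr
        _ = (1 / b) * (1 / b) ^ j := by rw [pow_succ, one_div_pow]; field_simp
    refine (Finset.sum_le_sum e1).trans ?_
    rw [← Finset.mul_sum]
    have e2 : ∑ j ∈ Finset.range J, (1 / b) ^ j ≤ (1 - 1 / b)⁻¹ := by
      have h1 : 0 ≤ 1 / b := by positivity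
      have h2 : 1 / b < 1 := by
        rw [div_lt_one hb0]
        linarith
      exact (summable_geometric_of_lt_one h1 h2).sum_le_tsum (Finset.range J)
        (fun i _ => by positivity) |>.trans (le_of_eq (tsum_geometric_of_lt_one h1 h2))
    calc 1 / b * ∑ j ∈ Finset.range J, (1 / b) ^ j ≤ 1 / b * (1 - 1 / b)⁻¹ := by gcongr
      _ = 1 / (b - 1) := by
        have : b - 1 ≠ 0 := by linarith
        field_simp
      _ ≤ ε := by
        rw [div_le_iff₀ (by linarith)]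
        have : 1 / ε ≤ b - 1 := by linarith
        rw [div_le_iff₀ hε] at this
        linarith
  refine ⟨?_, key, ?_, ?_⟩
  · intro j
    calc (2 : ℝ) ^ j ≤ 2 ^ (2 ^ j) := pow_le_pow_right₀ (by norm_num) Nat.lt_two_pow_self.le
      _ ≤ b ^ (2 ^ j) := by gcongr
  · intro J
    refine (Finset.sum_le_sum fun j _ => ?_).trans (key J)
    rw [Real.exp_neg, one_div]
    have h : 0 < b ^ (2 ^ j) := by positivity
    have h' := pa_le_exp (b ^ (2 ^ j))
    gcongr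
  · intro J
    have hlogb : 8 / ε ≤ Real.log b := by
      rw [Real.le_log_iff_exp_le hb0]
      exact hb4
    have hlog0 : 0 < Real.log b := lt_of_lt_of_le (by positivity) hlogb
    have e1 : ∀ j ∈ Finset.range J, 4 / Real.log (b ^ (2 ^ j)) = (4 / Real.log b) * (1 / 2) ^ j := by
      intro j _
      rw [Real.log_pow]
      push_cast
      rw [one_div_pow]
      field_simp
    rw [Finset.sum_congr rfl e1, ← Finset.mul_sum]
    have e2 : ∑ j ∈ Finset.range J, ((1 : ℝ) / 2) ^ j ≤ 2 :=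
      sum_geometric_two_le J
    calc 4 / Real.log b * ∑ j ∈ Finset.range J, ((1 : ℝ) / 2) ^ j ≤ 4 / Real.log b * 2 := by gcongr
      _ = 8 / Real.log b := by ring
      _ ≤ ε := by
        rw [div_le_iff₀ hlog0]
        rw [div_le_iff₀ hε] at hlogb
        linarith

end Pool.Agent.GaussMR
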