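import Pool.Agent.Lib_MP_f1a94e_mr.MertensB
import Pool.Agent.Lib_MP_f1a94e_mu.Chain
import Pool.Agent.Lib_MP_f1a94e_mu.ParamsA

/-!
# Piece PARAMS: choice of the parameters of the stages
-/

set_option autoImplicit false

namespace Pool.Agent.GaussMR

namespace ParamsP

theorem Ls_lower {C' : ℝ} (hC' : ∀ P Q : ℝ, 2 ≤ P → P ≤ Q →
    |Ls P Q - (Real.log (Real.log Q) - Real.log (Real.log P)) / 2| ≤ C') {u v : ℝ} (hu : 1 ≤ u)
    (huv : u ≤ v) : (Real.log v - Real.log u) / 2 - C' ≤ Ls (Real.exp u) (Real.exp v) := by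
  have h2 : 2 ≤ Real.exp u := by
    have := Real.add_one_le_exp u
    linarith
  have h := hC' (Real.exp u) (Real.exp v) h2 (Real.exp_le_exp.mpr huv)
  rw [Real.log_exp, Real.log_exp] at h
  have := (abs_le.mp h).1
  linarith

/-- the large parameters -/
theorem large (C2 M ρ L : ℝ) (hC2 : 1 ≤ C2) (hM : 1 ≤ M) (hρ : 0 < ρ) :
    ∃ X0 : ℝ, ∀ X : ℝ, X0 ≤ X → 1 < X ∧ 0 < Real.log X ∧ L ≤ C2 * Real.log (Real.log X) ∧
      20 * M * (C2 * Real.log (Real.log X)) ≤ Real.log X ∧ X ^ (-(1 / 4 : ℝ)) ≤ ρ := by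
  have h1 : Filter.Tendsto (fun X : ℝ => Real.log (Real.log X)) Filter.atTop Filter.atTop :=
    Real.tendsto_log_atTop.comp Real.tendsto_log_atTop
  have h2 : Filter.Tendsto (fun X : ℝ => X ^ (-(1 / 4 : ℝ))) Filter.atTop (nhds 0) :=
    tendsto_rpow_neg_atTop (by norm_num)
  have h3 : (fun X : ℝ => Real.log (Real.log X)) =o[Filter.atTop] (fun X : ℝ => Real.log X) :=
    Real.isLittleO_log_id_atTop.comp_tendsto Real.tendsto_log_atTop
  have hc : 0 < 1 / (20 * M * C2) := by positivity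
  have h4 := h3.bound hc
  have hev : ∀ᶠ X : ℝ in Filter.atTop, 1 < X ∧ 0 < Real.log X ∧
      L ≤ C2 * Real.log (Real.log X) ∧
      20 * M * (C2 * Real.log (Real.log X)) ≤ Real.log X ∧ X ^ (-(1 / 4 : ℝ)) ≤ ρ := by
    filter_upwards [h1.eventually_ge_atTop (max L 0), h2.eventually_le_const hρ, h4,
      Filter.eventually_gt_atTop 1, Real.tendsto_log_atTop.eventually_gt_atTop 0] with X a1 a2 a3 a4 a5
    have a6 : L ≤ Real.log (Real.log X) := (le_max_left _ _).trans a1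
    have a7 : 0 ≤ Real.log (Real.log X) := (le_max_right _ _).trans a1
    refine ⟨a4, a5, ?_, ?_, a2⟩
    · exact a6.trans (le_mul_of_one_le_left a7 hC2)
    · rw [Real.norm_of_nonneg a7, Real.norm_of_nonneg a5.le] at a3
      have h5 := mul_le_mul_of_nonneg_left a3 (by positivity : 0 ≤ 20 * M * C2)
      have h6 : 20 * M * C2 * (1 / (20 * M * C2) * Real.log X) = Real.log X := by
        field_simp
      rw [h6] at h5
      linarith
  exact Filter.eventually_atTop.mp hev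

theorem exists_J {b lam : ℝ} (hb : 2 ≤ b) (h : b ^ 8 ≤ lam) :
    ∃ n : ℕ, (b ^ (2 ^ n)) ^ 8 ≤ lam ∧ lam < (b ^ (2 ^ n)) ^ 16 := by
  classical
  have hex : ∃ n : ℕ, lam < (b ^ (2 ^ n)) ^ 8 := by
    obtain ⟨n, hn⟩ := pow_unbounded_of_one_lt lam (by linarith : 1 < b)
    refine ⟨n, hn.trans_le ?_⟩
    rw [← pow_mul]
    refine pow_le_pow_right₀ (by linarith) ?_
    have := Nat.lt_two_pow_self (n := n)
    omega
  have h0 : Nat.find hex ≠ 0 := by
    intro h0
    have := Nat.find_spec hex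
    rw [h0] at this
    simp only [pow_zero, pow_one] at this
    linarith
  obtain ⟨n, hn⟩ := Nat.exists_eq_succ_of_ne_zero h0
  refine ⟨n, not_lt.mp (Nat.find_min hex (by omega)), ?_⟩
  have := Nat.find_spec hex
  rw [hn] at this
  refine this.trans_le (le_of_eq ?_)
  rw [← pow_mul, ← pow_mul, Nat.succ_eq_add_one, pow_succ]
  congr 1
  ring

end ParamsP

open ParamsP in
/-- Choice. `Ls P Q ≥ (log log Q - log log P) / 2 - C'` (`Ls_bounds`). `M` with `log M / 2 - C' ≥ 8 / ε` and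
`≥ 1`, `ρ = ε / 16` (or `1` if smaller). `b` large: `μ_j = b ^ (2 ^ j)`, and for `j < J`
`P_j = exp (μ_j ^ 4)`, `Q_j = exp (μ_j ^ 5)` (so `Ls ≥ (log μ_j) / 2 - C' ≥ (log μ_j) / 4 ≥ 1`),
`r_j = 1 / μ_j`, `a_j = α (1 - 1 / 2 ^ (j+1))`, `Q0 = exp (b ^ 5)`. With `λ = C2 log log X` let `J ≥ 1` be such
that `μ_(J-1) ^ 8 ≤ λ < μ_(J-1) ^ 16 = μ_J ^ 8` (exists for large `X`), and stage `J` has
`P_J = (log X)^C2 = exp λ`, `Q_J = exp (M λ)`, `r_J = ρ`, `a_J = α`. `l_j = 2 log Q_(j+1) / log P_j`: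
`2 μ_j ^ 6` for `j + 1 < J` and `2 M λ / μ_(J-1) ^ 4` for `j = J - 1` (both `≥ 1`).
The terms of `Err`: `param_first`, `param_step` (`μ_(j+1) = μ_j²`, `a_(j+1) - a_j = α / 2^(j+2)`),
`param_last` (`α - a_(J-1) = α / 2^J`), `param_sums`. `Q_j ^ 20 ≤ X`, `X^(-1/4) ≤ r_j`: clear for large
`X`, as `μ_j ≤ λ` and `Q_j ≤ exp (λ + M λ)`, for `j < J`. -/
theorem params (C α C2 ε : ℝ) (hC : 0 < C) (hα : 0 < α) (hα1 : α ≤ 1) (hC2 : 1 ≤ C2) (hε : 0 < ε) :
    ∃ M ρ Q0 : ℝ, 1 ≤ M ∧ 0 < ρ ∧ ρ ≤ 1 ∧ 1 ≤ Q0 ∧ ∃ X0 : ℝ, ∀ X : ℝ, X0 ≤ X →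
      ∃ (J : ℕ) (P Q r a l : ℕ → ℝ), Adm X J P Q r a l ∧ Q 0 = Q0 ∧ P J = Real.log X ^ C2 ∧
        Q J = Real.log X ^ (C2 * M) ∧ r J = ρ ∧ a J = α ∧ Err C J P Q r a l ≤ ε := by
  obtain ⟨C', hC'⟩ := Ls_bounds
  have hC'0 : 0 ≤ C' := (abs_nonneg _).trans (hC' 2 2 le_rfl le_rfl)
  obtain ⟨M, hM⟩ : ∃ M : ℝ, M = Real.exp (2 * (C' + 8 / ε + 1)) := ⟨_, rfl⟩
  have h8 : 0 < 8 / ε := by positivity
  have hM1 : 1 ≤ M := by
    rw [hM]
    apply Real.one_le_exp
    positivity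
  have hlogM : Real.log M = 2 * (C' + 8 / ε + 1) := by rw [hM, Real.log_exp]
  obtain ⟨ρ, hρ⟩ : ∃ ρ : ℝ, ρ = min 1 (ε / 16) := ⟨_, rfl⟩
  have hρ0 : 0 < ρ := by rw [hρ]; positivity
  have hρ1 : ρ ≤ 1 := by rw [hρ]; exact min_le_left _ _
  have hρε : ρ ≤ ε / 16 := by rw [hρ]; exact min_le_right _ _
  obtain ⟨b1, hb1, hstep⟩ := param_step C α hC.le hα
  obtain ⟨L0, hL0, hlast⟩ := param_last C α M ρ hC.le hα hM1 hρ0
  obtain ⟨b2, hb2, hfirst⟩ := param_first α (ε / 16) hα (by positivity)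
  obtain ⟨b3, hb3, hsums⟩ := param_sums (ε / 16) (by positivity)
  obtain ⟨b, hb⟩ : ∃ b : ℝ, b = max (max b1 b2) (max b3 (Real.exp (4 * C' + 4))) := ⟨_, rfl⟩
  have hbb1 : b1 ≤ b := by rw [hb]; exact (le_max_left _ _).trans (le_max_left _ _)
  have hbb2 : b2 ≤ b := by rw [hb]; exact (le_max_right _ _).trans (le_max_left _ _)
  have hbb3 : b3 ≤ b := by rw [hb]; exact (le_max_left _ _).trans (le_max_right _ _)
  have hbb4 : Real.exp (4 * C' + 4) ≤ b := by rw [hb]; exact (le_max_right _ _).trans (le_max_right _ _)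
  have hb2' : 2 ≤ b := hb3.trans hbb3
  obtain ⟨hs1, hs2, hs3, hs4⟩ := hsums b hbb3
  obtain ⟨μ, hμ⟩ : ∃ μ : ℕ → ℝ, μ = fun j => b ^ (2 ^ j) := ⟨_, rfl⟩
  have hμb : ∀ j, b ≤ μ j := by
    intro j
    rw [hμ]
    calc b = b ^ 1 := (pow_one b).symm
      _ ≤ b ^ (2 ^ j) := pow_le_pow_right₀ (by linarith) Nat.one_le_two_pow
  have hμ0 : μ 0 = b := by rw [hμ]; simp
  have hμs : ∀ j, μ (j + 1) = μ j ^ 2 := by
    intro j
    rw [hμ]
    simp only
    rw [← pow_mul, pow_succ]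
  have hμ1 : ∀ j, 1 ≤ μ j := fun j => by linarith [hμb j]
  have hμp : ∀ j, 0 < μ j := fun j => by linarith [hμb j]
  have hμmono : ∀ i j, i ≤ j → μ i ≤ μ j := by
    intro i j hij
    rw [hμ]
    exact pow_le_pow_right₀ (by linarith) (Nat.pow_le_pow_right (by norm_num) hij)
  have hμlog : ∀ j, 4 * C' + 4 ≤ Real.log (μ j) := by
    intro j
    rw [Real.le_log_iff_exp_le (hμp j)]
    exact hbb4.trans (hμb j)
  have hμ2j : ∀ j, (2 : ℝ) ^ j ≤ μ j := by
    intro j
    rw [hμ]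
    exact hs1 j
  obtain ⟨X0, hX0⟩ := large C2 M ρ (max (max (b ^ 8) L0) 2) hC2 hM1 hρ0
  refine ⟨M, ρ, Real.exp (b ^ 5), hM1, hρ0, hρ1, Real.one_le_exp (by positivity), X0, ?_⟩
  intro X hX
  obtain ⟨hX1, hlX, hlam, hlam20, hXρ⟩ := hX0 X hX
  obtain ⟨lam, hlamdef⟩ : ∃ lam : ℝ, lam = C2 * Real.log (Real.log X) := ⟨_, rfl⟩
  rw [← hlamdef] at hlam hlam20
  have hlamb : b ^ 8 ≤ lam := (le_max_left _ _).trans ((le_max_left _ _).trans hlam)
  have hlamL : L0 ≤ lam := (le_max_right _ _).trans ((le_max_left _ _).trans hlam)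
  have hlam2 : 2 ≤ lam := (le_max_right _ _).trans hlam
  have hXpos : 0 < X := by linarith
  obtain ⟨n, hn1, hn2⟩ := exists_J hb2' hlamb
  have hn1' : μ n ^ 8 ≤ lam := by rw [hμ]; exact hn1
  have hn2' : lam < μ n ^ 16 := by rw [hμ]; exact hn2
  have hμlam : ∀ j, j ≤ n → ∀ i, i ≤ 8 → μ j ^ i ≤ lam := by
    intro j hj i hi
    calc μ j ^ i ≤ μ j ^ 8 := pow_le_pow_right₀ (hμ1 j) hi
      _ ≤ μ n ^ 8 := pow_le_pow_left₀ (hμp j).le (hμmono j n hj) 8
      _ ≤ lam := hn1'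
  have hlam0 : 0 ≤ lam := by linarith only [hlam2]
  have hMlam : lam ≤ M * lam := le_mul_of_one_le_left hlam0 hM1
  have hlogX20 : 20 * lam ≤ Real.log X := by linarith only [hMlam, hlam20]
  -- the sequences
  obtain ⟨P, hP⟩ : ∃ P : ℕ → ℝ, P = fun j => if j ≤ n then Real.exp (μ j ^ 4) else Real.exp lam :=
    ⟨_, rfl⟩
  obtain ⟨Q, hQ⟩ : ∃ Q : ℕ → ℝ, Q = fun j => if j ≤ n then Real.exp (μ j ^ 5)
    else Real.exp (M * lam) := ⟨_, rfl⟩
  obtain ⟨r, hr⟩ : ∃ r : ℕ → ℝ, r = fun j => if j ≤ n then 1 / μ j else ρ := ⟨_, rfl⟩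
  obtain ⟨a, ha⟩ : ∃ a : ℕ → ℝ, a = fun j => if j ≤ n then α * (1 - 1 / 2 ^ (j + 1)) else α :=
    ⟨_, rfl⟩
  obtain ⟨l, hl⟩ : ∃ l : ℕ → ℝ, l = fun j => if j < n then 2 * μ j ^ 6
    else 2 * M * lam / μ j ^ 4 := ⟨_, rfl⟩
  have Pj : ∀ j, j ≤ n → P j = Real.exp (μ j ^ 4) := fun j hj => by rw [hP]; exact if_pos hj
  have Qj : ∀ j, j ≤ n → Q j = Real.exp (μ j ^ 5) := fun j hj => by rw [hQ]; exact if_pos hj
  have rj : ∀ j, j ≤ n → r j = 1 / μ j := fun j hj => by rw [hr]; exact if_pos hj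
  have aj : ∀ j, j ≤ n → a j = α * (1 - 1 / 2 ^ (j + 1)) := fun j hj => by rw [ha]; exact if_pos hj
  have lj : ∀ j, j < n → l j = 2 * μ j ^ 6 := fun j hj => by rw [hl]; exact if_pos hj
  have PJ : P (n + 1) = Real.exp lam := by rw [hP]; exact if_neg (by omega)
  have QJ : Q (n + 1) = Real.exp (M * lam) := by rw [hQ]; exact if_neg (by omega)
  have rJ : r (n + 1) = ρ := by rw [hr]; exact if_neg (by omega)
  have aJ : a (n + 1) = α := by rw [ha]; exact if_neg (by omega)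
  have lJ : l n = 2 * M * lam / μ n ^ 4 := by rw [hl]; exact if_neg (by omega)
  have haj01 : ∀ j, 0 ≤ α * (1 - 1 / 2 ^ (j + 1)) ∧ α * (1 - 1 / 2 ^ (j + 1)) ≤ α := by
    intro j
    have h1 : (1 : ℝ) ≤ 2 ^ (j + 1) := one_le_pow₀ (by norm_num)
    have h2 : (1 : ℝ) / 2 ^ (j + 1) ≤ 1 := by
      rw [div_le_one (by positivity)]
      exact h1
    have h3 : (0 : ℝ) < 1 / 2 ^ (j + 1) := by positivity
    constructor
    · exact mul_nonneg hα.le (by linarith only [h2])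
    · linarith only [mul_nonneg hα.le h3.le]
  have hLsj : ∀ j, j ≤ n → Real.log (μ j) / 4 ≤ Ls (P j) (Q j) ∧ 1 ≤ Real.log (μ j) / 4 := by
    intro j hj
    rw [Pj j hj, Qj j hj]
    have h1 := Ls_lower hC' (one_le_pow₀ (hμ1 j) : 1 ≤ μ j ^ 4)
      (pow_le_pow_right₀ (hμ1 j) (by norm_num : 4 ≤ 5))
    rw [Real.log_pow, Real.log_pow] at h1
    push_cast at h1
    have h2 := hμlog j
    constructor <;> linarith
  have hLsJ : 8 / ε + 1 ≤ Ls (P (n + 1)) (Q (n + 1)) := by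
    rw [PJ, QJ]
    have h1 := Ls_lower hC' (by linarith only [hlam2] : 1 ≤ lam) hMlam
    rw [Real.log_mul (by linarith) (by linarith), hlogM] at h1
    linarith
  have hPJC : P (n + 1) = Real.log X ^ C2 := by
    rw [PJ, Real.rpow_def_of_pos hlX, hlamdef]
    congr 1
    ring
  have hQJC : Q (n + 1) = Real.log X ^ (C2 * M) := by
    rw [QJ, Real.rpow_def_of_pos hlX, hlamdef]
    congr 1
    ring
  have hexp20 : ∀ v : ℝ, 20 * v ≤ Real.log X → Real.exp v ^ 20 ≤ X := by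
    intro v hv
    rw [← Real.exp_nat_mul, ← Real.le_log_iff_exp_le hXpos]
    push_cast
    exact hv
  have hX4 : X ^ (-(1 / 4 : ℝ)) ≤ 1 / lam := by
    rw [Real.rpow_def_of_pos hXpos, le_div_iff₀ (by linarith)]
    have h1 : lam ≤ Real.exp (Real.log X * (1 / 4)) := by
      have := Real.add_one_le_exp (Real.log X * (1 / 4))
      linarith
    calc Real.exp (Real.log X * -(1 / 4)) * lam ≤
        Real.exp (Real.log X * -(1 / 4)) * Real.exp (Real.log X * (1 / 4)) := by gcongr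
      _ = 1 := by
        rw [← Real.exp_add]
        have : Real.log X * -(1 / 4) + Real.log X * (1 / 4) = 0 := by ring
        rw [this, Real.exp_zero]
  refine ⟨n + 1, P, Q, r, a, l, ⟨?_, ?_⟩, ?_, hPJC, hQJC, rJ, aJ, ?_⟩
  · -- conditions for j ≤ J
    intro j hj
    rcases Nat.lt_or_ge n j with hjn | hjn
    · have hje : j = n + 1 := by omega
      rw [hje]
      refine ⟨?_, ?_, ?_, ?_, ?_, ?_, ?_, ?_, ?_⟩
      · rw [PJ]; exact Real.exp_le_exp.mpr hlam2
      · rw [PJ, QJ]; exact Real.exp_le_exp.mpr hMlam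
      · rw [QJ]; exact hexp20 _ (by linarith)
      · rw [rJ]; exact hρ0
      · rw [rJ]; exact hρ1
      · rw [rJ]; exact hXρ
      · linarith
      · rw [aJ]; exact hα.le
      · rw [aJ]; exact hα1
    · refine ⟨?_, ?_, ?_, ?_, ?_, ?_, ?_, ?_, ?_⟩
      · rw [Pj j hjn]
        apply Real.exp_le_exp.mpr
        calc (2 : ℝ) ≤ μ j := by linarith [hμb j]
          _ = μ j ^ 1 := (pow_one _).symm
          _ ≤ μ j ^ 4 := pow_le_pow_right₀ (hμ1 j) (by norm_num)
      · rw [Pj j hjn, Qj j hjn]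
        exact Real.exp_le_exp.mpr (pow_le_pow_right₀ (hμ1 j) (by norm_num))
      · rw [Qj j hjn]
        apply hexp20
        have := hμlam j hjn 5 (by norm_num)
        linarith
      · rw [rj j hjn]
        have := hμp j
        positivity
      · rw [rj j hjn, div_le_one (hμp j)]
        exact hμ1 j
      · rw [rj j hjn]
        refine hX4.trans ?_
        apply one_div_le_one_div_of_le (hμp j)
        have := hμlam j hjn 1 (by norm_num)
        rwa [pow_one] at this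
      · linarith [(hLsj j hjn).1, (hLsj j hjn).2]
      · rw [aj j hjn]; exact (haj01 j).1
      · rw [aj j hjn]; exact (haj01 j).2.trans hα1
  · -- conditions for j < J
    intro j hj
    have hjn : j ≤ n := by omega
    rcases Nat.lt_or_ge j n with hlt | hge
    · refine ⟨?_, ?_, ?_⟩
      · rw [aj j hjn, aj (j + 1) (by omega)]
        have h1 : (1 : ℝ) / 2 ^ (j + 1 + 1) ≤ 1 / 2 ^ (j + 1) :=
          one_div_le_one_div_of_le (by positivity) (pow_le_pow_right₀ (by norm_num) (by omega))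
        exact mul_le_mul_of_nonneg_left (by linarith only [h1]) hα.le
      · rw [lj j hlt]
        have : (1 : ℝ) ≤ μ j ^ 6 := one_le_pow₀ (hμ1 j)
        linarith
      · rw [lj j hlt, Qj (j + 1) (by omega), Pj j hjn, Real.log_exp, Real.log_exp, hμs]
        exact le_of_eq (by ring)
    · have hje : j = n := by omega
      rw [hje]
      refine ⟨?_, ?_, ?_⟩
      · rw [aj n le_rfl, aJ]; exact (haj01 n).2
      · rw [lJ, le_div_iff₀ (pow_pos (hμp n) 4)]
        have := hμlam n le_rfl 4 (by norm_num)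
        linarith only [this, hMlam, hlam0]
      · rw [lJ, QJ, Pj n le_rfl, Real.log_exp, Real.log_exp, div_mul_cancel₀ _ (pow_pos (hμp n) 4).ne']
        exact le_of_eq (by ring)
  · rw [Qj 0 (Nat.zero_le n), hμ0]
  · -- the error
    have hsumA : ∑ j ∈ Finset.range (n + 1 + 1), (1 / Ls (P j) (Q j) + r j) ≤
        ε / 16 + ε / 16 + (ε / 8 + ε / 16) := by
      rw [Finset.sum_range_succ]
      refine add_le_add ?_ (add_le_add ?_ ?_)
      · rw [Finset.sum_add_distrib]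
        refine add_le_add ?_ ?_
        · refine le_trans (Finset.sum_le_sum fun j hj => ?_) (hs4 (n + 1))
          have hjn : j ≤ n := by
            have := Finset.mem_range.mp hj
            omega
          obtain ⟨h1, h2⟩ := hLsj j hjn
          have h3 : 1 / Ls (P j) (Q j) ≤ 1 / (Real.log (μ j) / 4) :=
            one_div_le_one_div_of_le (by linarith) h1
          refine h3.trans (le_of_eq ?_)
          rw [hμ, one_div_div]
        · refine le_trans (Finset.sum_le_sum fun j hj => ?_) (hs2 (n + 1))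
          have hjn : j ≤ n := by
            have := Finset.mem_range.mp hj
            omega
          rw [rj j hjn, hμ]
      · have h3 : 1 / Ls (P (n + 1)) (Q (n + 1)) ≤ 1 / (8 / ε) :=
          one_div_le_one_div_of_le h8 (by linarith)
        refine h3.trans (le_of_eq ?_)
        rw [one_div_div]
      · rw [rJ]; exact hρε
    have hfst : (Real.log (Q 0) / r 0 + 1) ^ 2 * P 0 ^ (-(2 * a 0)) ≤ ε / 16 := by
      rw [Qj 0 (Nat.zero_le n), rj 0 (Nat.zero_le n), Pj 0 (Nat.zero_le n), aj 0 (Nat.zero_le n),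
        hμ0, Real.log_exp, ← Real.exp_mul]
      have e1 : b ^ 5 / (1 / b) = b ^ 5 * b := by
        rw [div_div_eq_mul_div, div_one]
      have e2 : b ^ 4 * -(2 * (α * (1 - 1 / 2 ^ (0 + 1)))) = -(α * b ^ 4) := by ring
      rw [e1, e2]
      exact hfirst b hbb2
    have hterm : ∑ j ∈ Finset.range (n + 1), (Real.log (Q (j + 1)) / r (j + 1) + 1) ^ 2 *
        (Real.log (Q j) / r j + 1) * Q j ^ 2 * Real.exp (C * (l j + 2) * Real.log (l j + 2)) *
        P (j + 1) ^ (-(2 * (a (j + 1) - a j))) ≤ ε / 16 := by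
      refine le_trans (Finset.sum_le_sum fun j hj => ?_) (hs3 (n + 1))
      have hjn : j ≤ n := by
        have := Finset.mem_range.mp hj
        omega
      have hmp := hμp j
      have hexpμ : Real.exp (-(b ^ (2 ^ j))) = Real.exp (-(μ j)) := by rw [hμ]
      rw [hexpμ]
      have e2 : Real.log (Q j) / r j = μ j ^ 6 := by
        rw [Qj j hjn, rj j hjn, Real.log_exp, div_div_eq_mul_div, div_one]
        ring
      have e3 : Q j ^ 2 = Real.exp (2 * μ j ^ 5) := by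
        rw [Qj j hjn, ← Real.exp_nat_mul]
        push_cast
        rfl
      rw [e2, e3]
      rcases Nat.lt_or_ge j n with hlt | hge
      · have e1 : Real.log (Q (j + 1)) / r (j + 1) = μ j ^ 12 := by
          rw [Qj (j + 1) (by omega), rj (j + 1) (by omega), Real.log_exp, div_div_eq_mul_div,
            div_one, hμs]
          ring
        have e4 : P (j + 1) ^ (-(2 * (a (j + 1) - a j))) =
            Real.exp (-(α / 2 ^ (j + 1) * μ j ^ 8)) := by
          rw [Pj (j + 1) (by omega), ← Real.exp_mul, aj j hjn, aj (j + 1) (by omega), hμs]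
          congr 1
          rw [pow_succ (2 : ℝ) (j + 1)]
          field_simp
          ring
        rw [e1, e4, lj j hlt]
        exact hstep (μ j) j (hbb1.trans (hμb j)) (hμ2j j)
      · have hje : j = n := by omega
        rw [hje]
        have e1 : Real.log (Q (n + 1)) / r (n + 1) = M * lam / ρ := by
          rw [QJ, rJ, Real.log_exp]
        have e4 : P (n + 1) ^ (-(2 * (a (n + 1) - a n))) = Real.exp (-(α / 2 ^ n * lam)) := by
          rw [PJ, ← Real.exp_mul, aJ, aj n le_rfl]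
          congr 1
          rw [pow_succ (2 : ℝ) n]
          field_simp
          ring
        rw [e1, e4, lJ]
        exact hlast lam (μ n) n hlamL (hμ1 n) hn1' hn2' (hμ2j n)
    unfold Err
    linarith

end Pool.Agent.GaussMR
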