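import Pool.Agent.Lib_MP_f1a94e_mr.Mass
import Pool.Agent.Lib_MP_f1a94e_mr.Few
import Pool.Agent.Lib_MP_f1a94e_mr.ConjTrick
import Pool.Agent.Lib_MP_f1a94e_mr.Last
import Pool.Agent.Lib_MP_f1a94e_mu.Params

/-!
# Piece EDGESLIN: a positive proportion of the edges is a sign change
-/

set_option autoImplicit false

namespace Pool.Agent.GaussMR

/-- Suppose `#edges < c' X`. Let `c` be from `zero_coeff`, `δ, C` from `conj_trick`, `ε1` small in terms of
`c` and `C`. Parameters: `α = min (δ/8) (1/4)`, `C2 ≥ 4/δ`, `params` with `ε = ε1 c0² / C_chain` (`#V X ≥ c0 X`),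
`T = ⌊X / Q0⌋`. `mass` (with `ε1`, `c' ` so small that `c' X ≤ c ε1³ T`) gives mass `≥ (1 - ε1) N²` on `fr T`;
by `chain` the set `S` of `k ∈ fr T` not in the small set of the last stage has mass `≥ (1 - 2 ε1) N²`; by
`few` `#S ≤ X^(2 α + 1/C2 + δ/4) ≤ X^δ`; `conj_trick` and `zero_coeff` give
`(1 - 2 ε1) N² ≤ ((1 - c)² + C (2 ε1 + X^(-δ))) N²`, a contradiction. -/
theorem edges_lin (F : G → ℝ) (hF : PM F) (v : G) (hv : Odd (nm v)) (hp : Prim v) (hFv : F v = -1) :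
    ∃ c X0 : ℝ, 0 < c ∧ ∀ X : ℝ, X0 ≤ X → c * X ≤ ((edges F X).card : ℝ) := by
  classical
  obtain ⟨cM, hcM, hmass⟩ := mass
  obtain ⟨CS, hCS, hchain⟩ := chain
  obtain ⟨δK, CK, XK, hδK, hCK, hconj⟩ := conj_trick
  obtain ⟨cL', XL, hcL', hlast'⟩ := zero_coeff F hF v hv hp hFv
  obtain ⟨c0, hc0, hN⟩ := card_V_ge
  set cL : ℝ := min cL' 1 with hcLdef
  have hcL : 0 < cL := lt_min hcL' one_pos
  have hcL1 : cL ≤ 1 := min_le_right _ _
  set ε : ℝ := cL / (6 * (1 + CK)) with hεdef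
  have hε : 0 < ε := by positivity
  have hε1 : ε ≤ 1 := by
    rw [hεdef, div_le_one (by positivity)]
    linarith
  have h2ε : 2 * ε * (1 + CK) = cL / 3 := by
    rw [hεdef]
    field_simp
    ring
  set δ' : ℝ := min δK 1 with hδ'def
  have hδ' : 0 < δ' := lt_min hδK one_pos
  have hδ'1 : δ' ≤ 1 := min_le_right _ _
  have hδ'K : δ' ≤ δK := min_le_left _ _
  set α : ℝ := δ' / 8 with hαdef
  set C2 : ℝ := 32 / δ' with hC2def
  have hα : 0 < α := by positivity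
  have hαq : α ≤ 1 / 4 := by rw [hαdef]; linarith
  have hα1 : α ≤ 1 := by linarith
  have hC2 : 32 ≤ C2 := by
    rw [hC2def, le_div_iff₀ hδ']
    linarith
  have hC2δ : 1 / C2 = δ' / 32 := by
    rw [hC2def]
    field_simp
  obtain ⟨M, ρ, Q0, hM1, hρ, hρ1, hQ0, XP, hparams⟩ :=
    params CS α C2 (ε * c0 ^ 2 / CS) hCS hα hα1 (by linarith) (by positivity)
  obtain ⟨XF, hfew⟩ := few α C2 M ρ (δ' / 4) hα hαq (by linarith) hM1 hρ hρ1 (by positivity)
  -- the error of the last step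
  have hlim : ∀ᶠ X : ℝ in Filter.atTop, CK * X ^ (-δK) < cL / 3 := by
    have h1 : Filter.Tendsto (fun X : ℝ => CK * X ^ (-δK)) Filter.atTop (nhds (CK * 0)) :=
      (tendsto_rpow_neg_atTop hδK).const_mul CK
    rw [mul_zero] at h1
    exact h1.eventually (gt_mem_nhds (by positivity))
  obtain ⟨XE, hXE⟩ := Filter.eventually_atTop.1 hlim
  have hQ0pos : 0 < Q0 := by linarith
  refine ⟨cM * ε ^ 3 / (2 * Q0), max (max (max 3 XP) (max XF XE))
    (max (max XK XL) (max (2 * Q0) (2 * Q0 / (cM * ε)))), by positivity, fun X hX => ?_⟩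
  simp only [max_le_iff] at hX
  obtain ⟨⟨⟨hX3, hXP⟩, hXF, hXE'⟩, ⟨hXK, hXL⟩, hXQ, hXc⟩ := hX
  have hXpos : 0 < X := by linarith
  have hX1 : 1 ≤ X := by linarith
  by_contra hcon
  push Not at hcon
  obtain ⟨J, P, Q, r, a, l, hadm, hQ0', hPJ, hQJ, hrJ, haJ, herr⟩ := hparams X hXP
  set T : ℕ := ⌊X / Q0⌋₊ with hTdef
  have hTle : (T : ℝ) ≤ X / Q0 := Nat.floor_le (by positivity)
  have hTge : X / Q0 - 1 ≤ T := (Nat.sub_one_lt_floor _).le
  have hTX : (T : ℝ) ≤ X := hTle.trans (div_le_self hXpos.le hQ0)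
  have hThalf : X / (2 * Q0) ≤ T := by
    have h1 : 1 ≤ X / (2 * Q0) := by
      rw [le_div_iff₀ (by positivity)]; linarith
    have h2 : X / Q0 = 2 * (X / (2 * Q0)) := by field_simp
    linarith
  have hcT : 1 ≤ cM * ε * T := by
    have h1 : 1 ≤ cM * ε * (X / (2 * Q0)) := by
      rw [div_le_iff₀ (by positivity)] at hXc
      rw [mul_div_assoc', le_div_iff₀ (by positivity)]
      linarith
    exact h1.trans (mul_le_mul_of_nonneg_left hThalf (by positivity))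
  have hedge : ((edges F X).card : ℝ) ≤ cM * ε ^ 3 * T := by
    refine hcon.le.trans ?_
    calc cM * ε ^ 3 / (2 * Q0) * X = cM * ε ^ 3 * (X / (2 * Q0)) := by ring
      _ ≤ cM * ε ^ 3 * T := mul_le_mul_of_nonneg_left hThalf (by positivity)
  have hmassX := hmass F hF X T ε hX1 hε hε1 hcT hTX hedge
  set N : ℝ := ((V X).card : ℝ) with hNdef
  have hNX : c0 * X ≤ N := hN X hX1
  have hN0 : 0 < N := lt_of_lt_of_le (by positivity) hNX
  have hNX2 : c0 ^ 2 * X ^ 2 ≤ N ^ 2 := by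
    rw [← mul_pow]
    exact pow_le_pow_left₀ (by positivity) hNX 2
  -- the small set of the last stage
  have hch := hchain F hF X T J P Q r a l hadm (by rw [hQ0']; exact hTle)
  have hb : ∑ k ∈ smallSet F T (P J) (Q J) (r J) (a J), ‖fc F X k‖ ^ 2 ≤ ε * N ^ 2 := by
    refine hch.trans ?_
    calc CS * X ^ 2 * Err CS J P Q r a l ≤ CS * X ^ 2 * (ε * c0 ^ 2 / CS) :=
          mul_le_mul_of_nonneg_left herr (by positivity)
      _ = ε * (c0 ^ 2 * X ^ 2) := by field_simp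
      _ ≤ ε * N ^ 2 := mul_le_mul_of_nonneg_left hNX2 hε.le
  rw [hPJ, hQJ, hrJ, haJ] at hb
  set S1 : Finset ℤ := (fr T).filter (fun k => ∀ v : ℕ,
    ‖U F (Real.log X ^ C2) (Real.log X ^ (C2 * M)) ρ v k‖ ≤ Real.exp ((1 - α) * (v * ρ))) with hS1def
  set S : Finset ℤ := (fr T).filter (fun k => ¬∀ v : ℕ,
    ‖U F (Real.log X ^ C2) (Real.log X ^ (C2 * M)) ρ v k‖ ≤ Real.exp ((1 - α) * (v * ρ))) with hSdef
  have hsplit : ∑ k ∈ fr T, ‖fc F X k‖ ^ 2 = ∑ k ∈ S1, ‖fc F X k‖ ^ 2 +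
      ∑ k ∈ S, ‖fc F X k‖ ^ 2 := by
    rw [hS1def, hSdef, Finset.sum_filter_add_sum_filter_not]
  have hb1 : ∑ k ∈ S1, ‖fc F X k‖ ^ 2 ≤ ε * N ^ 2 := by
    refine le_trans (le_of_eq ?_) hb
    apply Finset.sum_congr _ (fun _ _ => rfl)
    rw [hS1def]
    unfold smallSet
    ext k
    simp
  have hSsub : S ⊆ fr T := Finset.filter_subset _ _
  have hSmass : (1 - 2 * ε) * N ^ 2 ≤ ∑ k ∈ S, ‖fc F X k‖ ^ 2 := by
    rw [hsplit] at hmassX
    linarith
  have hScard : (S.card : ℝ) ≤ X ^ δK := by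
    have h1 := hfew X hXF F hF T hTX
    have hfinS : {k : ℤ | k ∈ fr T ∧ ∃ v : ℕ, Real.exp ((1 - α) * (v * ρ)) <
        ‖U F (Real.log X ^ C2) (Real.log X ^ (C2 * M)) ρ v k‖}.Finite :=
      (fr T).finite_toSet.subset fun k hk => hk.1
    have h2' : S.card ≤ Set.ncard {k : ℤ | k ∈ fr T ∧ ∃ v : ℕ,
        Real.exp ((1 - α) * (v * ρ)) <
        ‖U F (Real.log X ^ C2) (Real.log X ^ (C2 * M)) ρ v k‖} := by
      rw [← Set.ncard_coe_finset S]
      refine Set.ncard_le_ncard (fun k hk => ?_) hfinS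
      have hk' : k ∈ S := hk
      have h3 := (Finset.mem_filter.1 hk').2
      push Not at h3
      exact ⟨hSsub hk', h3⟩
    have h2 : (S.card : ℝ) ≤ (Set.ncard {k : ℤ | k ∈ fr T ∧ ∃ v : ℕ,
        Real.exp ((1 - α) * (v * ρ)) <
        ‖U F (Real.log X ^ C2) (Real.log X ^ (C2 * M)) ρ v k‖} : ℝ) := by
      exact_mod_cast h2'
    refine (h2.trans h1).trans ?_
    apply Real.rpow_le_rpow_of_exponent_le hX1
    rw [hC2δ, hαdef]
    linarith
  have hfinal := hconj X hXK F hF T hTX S hSsub hScard (2 * ε) (by positivity) hSmass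
  have hzero : ‖fc F X 0‖ ≤ (1 - cL) * N := by
    refine (hlast' X hXL).trans ?_
    apply mul_le_mul_of_nonneg_right _ hN0.le
    have := min_le_left cL' 1
    linarith
  have hzero2 : ‖fc F X 0‖ ^ 2 ≤ (1 - cL) * N ^ 2 := by
    calc ‖fc F X 0‖ ^ 2 ≤ ((1 - cL) * N) ^ 2 := pow_le_pow_left₀ (norm_nonneg _) hzero 2
      _ = (1 - cL) * (1 - cL) * N ^ 2 := by ring
      _ ≤ (1 - cL) * 1 * N ^ 2 := by
          have : 0 ≤ 1 - cL := by linarith
          gcongr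
          linarith
      _ = (1 - cL) * N ^ 2 := by ring
  have hsum : ∑ k ∈ S, ‖fc F X k‖ ^ 2 ≤ ‖fc F X 0‖ ^ 2 + ∑ k ∈ S.erase 0, ‖fc F X k‖ ^ 2 := by
    by_cases h0 : (0 : ℤ) ∈ S
    · exact (Finset.add_sum_erase S (fun k => ‖fc F X k‖ ^ 2) h0).ge
    · rw [Finset.erase_eq_of_notMem h0]
      have : 0 ≤ ‖fc F X 0‖ ^ 2 := by positivity
      linarith
  have hK := hXE X hXE'
  have hN2 : 0 < N ^ 2 := by positivity
  have h9 : (1 - 2 * ε) * N ^ 2 ≤ ((1 - cL) + CK * (2 * ε + X ^ (-δK))) * N ^ 2 := by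
    calc (1 - 2 * ε) * N ^ 2 ≤ _ := hSmass.trans hsum
      _ ≤ (1 - cL) * N ^ 2 + CK * (2 * ε + X ^ (-δK)) * N ^ 2 := by linarith
      _ = _ := by ring
  have h10 := le_of_mul_le_mul_right h9 hN2
  nlinarith

end Pool.Agent.GaussMR
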